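import Mathlib

/-!
Multilinear Lie monomials: Bahturin's question for all bracket structures with at most three cherries.
-/

set_option linter.all false

universe u

namespace Pool.Agent.Results.MP_5ecbac_al.ThreeCherries

/-- Bracket structures: full binary bracketings of a word `x_1 x_2 ... x_n`. -/
inductive Br : Type
  | leaf : Br
  | node : Br → Br → Br

namespace Br

/-- The degree (number of letters). -/
def deg : Br → ℕ
  | leaf => 1
  | node l r => deg l + deg r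

/-- The multilinear Lie monomial `w_σ` evaluated at `x 0, x 1, ..., x (deg σ - 1)`. -/
def ev {A : Type*} [Bracket A A] : Br → (ℕ → A) → A
  | leaf, x => x 0
  | node l r, x => ⁅ev l x, ev r (fun i => x (i + deg l))⁆

/-- The number of cherries: nodes both of whose children are leaves, i.e. the number of innermost
brackets `[x_i, x_{i+1}]`. -/
def cherries : Br → ℕ
  | leaf => 0
  | node leaf leaf => 1
  | node l r => cherries l + cherries r

end Br

open Br

/-- Equality in the free commutative groupoid on one letter: the congruence generated by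
`uv = vu`. -/
inductive CEq : Br → Br → Prop
  | refl (s : Br) : CEq s s
  | symm {s t : Br} : CEq s t → CEq t s
  | trans {s t r : Br} : CEq s t → CEq t r → CEq s r
  | comm (s t : Br) : CEq (node s t) (node t s)
  | congr {s s' t t' : Br} : CEq s s' → CEq t t' → CEq (node s t) (node s' t')

/-- The identity `w_σ = 0` holds in `A`. -/
def Holds (A : Type*) [LieRing A] (s : Br) : Prop := ∀ x : ℕ → A, ev s x = 0

/-- The identities `w_σ = 0` and `w_τ = 0` hold in exactly the same Lie algebras over `K`. -/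
def EquivId (K : Type u) [Field K] (s t : Br) : Prop :=
  ∀ (A : Type u) [LieRing A] [LieAlgebra K A], Holds A s ↔ Holds A t

/-! ### combinatorics of bracket structures -/

lemma deg_pos (s : Br) : 1 ≤ s.deg := by
  induction s with
  | leaf => simp [deg]
  | node l r hl hr => simp only [deg]; omega

lemma CEq.deg_eq {s t : Br} (h : CEq s t) : s.deg = t.deg := by
  induction h with
  | refl s => rfl
  | symm _ ih => exact ih.symm
  | trans _ _ ih1 ih2 => exact ih1.trans ih2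
  | comm s t => simp only [deg]; omega
  | congr _ _ ih1 ih2 => simp only [deg]; omega

lemma cherries_pos (l r : Br) : 1 ≤ (node l r).cherries := by
  induction l generalizing r with
  | leaf =>
    induction r with
    | leaf => simp [cherries]
    | node a b iha ihb =>
      have e : (node leaf (node a b)).cherries = (leaf).cherries + (node a b).cherries := by
        simp [cherries]
      rw [e]
      cases a with
      | leaf =>
        cases b with
        | leaf => simp [cherries]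
        | node c d =>
          have := ihb
          have e2 : (node leaf (node c d)).cherries = leaf.cherries + (node c d).cherries := by
            simp [cherries]
          rw [e2] at this ⊢
          omega
      | node c d =>
        have e2 : (node leaf (node c d)).cherries = leaf.cherries + (node c d).cherries := by
          simp [cherries]
        have e3 : (node (node c d) b).cherries = (node c d).cherries + b.cherries := by
          cases b <;> simp [cherries]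
        rw [e2] at iha
        rw [e3]
        simp only [cherries] at iha ⊢
        omega
  | node a b iha ihb =>
    have e3 : (node (node a b) r).cherries = (node a b).cherries + r.cherries := by
      cases r <;> simp [cherries]
    rw [e3]
    have := iha b
    omega

lemma cherries_node (l r : Br) (h : ¬ (l = leaf ∧ r = leaf)) :
    (node l r).cherries = l.cherries + r.cherries := by
  cases l with
  | leaf =>
    cases r with
    | leaf => exact absurd ⟨rfl, rfl⟩ h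
    | node a b => simp [cherries]
  | node a b => cases r <;> simp [cherries]

/-- hang `k` leaves -/
def hang (t : Br) : ℕ → Br
  | 0 => t
  | k + 1 => node (hang t k) leaf

def cat (m : ℕ) : Br := hang (node leaf leaf) m

def two (i j k : ℕ) : Br := hang (node (cat i) (cat j)) k

lemma deg_hang (t : Br) (k : ℕ) : (hang t k).deg = t.deg + k := by
  induction k with
  | zero => rfl
  | succ k ih => simp only [hang, deg, ih]; omega

lemma deg_cat (m : ℕ) : (cat m).deg = m + 2 := by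
  rw [cat, deg_hang]; simp only [deg]; omega

lemma deg_two (i j k : ℕ) : (two i j k).deg = i + j + k + 4 := by
  rw [two, deg_hang]; simp only [deg, deg_cat]; omega

lemma cherries_zero {s : Br} (h : s.cherries = 0) : s = leaf := by
  cases s with
  | leaf => rfl
  | node l r => have := cherries_pos l r; omega

lemma cherries_one {s : Br} (h : s.cherries = 1) : ∃ m, CEq s (cat m) := by
  induction s with
  | leaf => simp [cherries] at h
  | node l r ihl ihr =>
    cases l with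
    | leaf =>
      cases r with
      | leaf => exact ⟨0, CEq.refl _⟩
      | node a b =>
        rw [cherries_node _ _ (by simp)] at h
        simp only [cherries, zero_add] at h
        obtain ⟨m, hm⟩ := ihr (by simpa using h)
        exact ⟨m + 1, (CEq.comm _ _).trans (CEq.congr hm (CEq.refl _))⟩
    | node a b =>
      cases r with
      | leaf =>
        rw [cherries_node _ _ (by simp)] at h
        simp only [cherries, add_zero] at h
        obtain ⟨m, hm⟩ := ihl (by simpa using h)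
        exact ⟨m + 1, CEq.congr hm (CEq.refl _)⟩
      | node c d =>
        rw [cherries_node _ _ (by simp)] at h
        have h1 := cherries_pos a b
        have h2 := cherries_pos c d
        omega

lemma two_swap (i j k : ℕ) : CEq (two i j k) (two j i k) := by
  induction k with
  | zero => exact CEq.comm _ _
  | succ k ih => exact CEq.congr ih (CEq.refl _)

lemma cherries_two' {s : Br} (h : s.cherries = 2) : ∃ i j k, CEq s (two i j k) := by
  induction s with
  | leaf => simp [cherries] at h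
  | node l r ihl ihr =>
    cases l with
    | leaf =>
      cases r with
      | leaf => simp [cherries] at h
      | node a b =>
        rw [cherries_node _ _ (by simp)] at h
        simp only [cherries, zero_add] at h
        obtain ⟨i, j, k, hm⟩ := ihr (by simpa using h)
        exact ⟨i, j, k + 1, (CEq.comm _ _).trans (CEq.congr hm (CEq.refl _))⟩
    | node a b =>
      cases r with
      | leaf =>
        rw [cherries_node _ _ (by simp)] at h
        simp only [cherries, add_zero] at h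
        obtain ⟨i, j, k, hm⟩ := ihl (by simpa using h)
        exact ⟨i, j, k + 1, CEq.congr hm (CEq.refl _)⟩
      | node c d =>
        rw [cherries_node _ _ (by simp)] at h
        have h1 := cherries_pos a b
        have h2 := cherries_pos c d
        obtain ⟨i, hi⟩ := cherries_one (s := node a b) (by omega)
        obtain ⟨j, hj⟩ := cherries_one (s := node c d) (by omega)
        exact ⟨i, j, 0, CEq.congr hi hj⟩

lemma cherries_two {s : Br} (h : s.cherries = 2) : ∃ i j k, j ≤ i ∧ CEq s (two i j k) := by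
  obtain ⟨i, j, k, hs⟩ := cherries_two' h
  rcases le_total j i with hij | hij
  · exact ⟨i, j, k, hij, hs⟩
  · exact ⟨j, i, k, hij, hs.trans (two_swap _ _ _)⟩

lemma node_of_pos {s : Br} (h : 1 ≤ s.cherries) : ∃ a b, s = node a b := by
  cases s with
  | leaf => simp [cherries] at h
  | node a b => exact ⟨a, b, rfl⟩

def three (k1 k2 k12 k3 k0 : ℕ) : Br := hang (node (two k1 k2 k12) (cat k3)) k0

lemma deg_three (k1 k2 k12 k3 k0 : ℕ) :
    (three k1 k2 k12 k3 k0).deg = k1 + k2 + k12 + k3 + k0 + 6 := by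
  rw [three, deg_hang]; simp only [deg, deg_cat, deg_two]; omega

lemma hang_congr {s t : Br} (h : CEq s t) (k : ℕ) : CEq (hang s k) (hang t k) := by
  induction k with
  | zero => exact h
  | succ k ih => exact CEq.congr ih (CEq.refl _)

lemma cherries_three {s : Br} (h : s.cherries = 3) :
    ∃ k1 k2 k12 k3 k0, k2 ≤ k1 ∧ CEq s (three k1 k2 k12 k3 k0) := by
  induction s with
  | leaf => simp [cherries] at h
  | node l r ihl ihr =>
    have hn : ¬ (l = leaf ∧ r = leaf) := by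
      rintro ⟨rfl, rfl⟩
      simp [cherries] at h
    rw [cherries_node _ _ hn] at h
    have hc : (l.cherries = 0 ∧ r.cherries = 3) ∨ (l.cherries = 3 ∧ r.cherries = 0) ∨
        (l.cherries = 1 ∧ r.cherries = 2) ∨ (l.cherries = 2 ∧ r.cherries = 1) := by omega
    rcases hc with ⟨h1, h2⟩ | ⟨h1, h2⟩ | ⟨h1, h2⟩ | ⟨h1, h2⟩
    · obtain ⟨k1, k2, k12, k3, k0, hk, e⟩ := ihr h2
      rw [cherries_zero h1]
      exact ⟨k1, k2, k12, k3, k0 + 1, hk, (CEq.comm _ _).trans (CEq.congr e (CEq.refl _))⟩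
    · obtain ⟨k1, k2, k12, k3, k0, hk, e⟩ := ihl h1
      rw [cherries_zero h2]
      exact ⟨k1, k2, k12, k3, k0 + 1, hk, CEq.congr e (CEq.refl _)⟩
    · obtain ⟨m, hm⟩ := cherries_one h1
      obtain ⟨i, j, k, hij, e⟩ := cherries_two h2
      exact ⟨i, j, k, m, 0, hij, (CEq.comm _ _).trans (CEq.congr e hm)⟩
    · obtain ⟨m, hm⟩ := cherries_one h2
      obtain ⟨i, j, k, hij, e⟩ := cherries_two h1
      exact ⟨i, j, k, m, 0, hij, CEq.congr e hm⟩

/-! ### the easy direction -/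

lemma ev_congr {A : Type*} [Bracket A A] (s : Br) : ∀ x y : ℕ → A,
    (∀ n < s.deg, x n = y n) → ev s x = ev s y := by
  induction s with
  | leaf => intro x y h; exact h 0 (by simp [deg])
  | node l r ihl ihr =>
    intro x y h
    simp only [ev]
    rw [ihl x y (fun n hn => h n (by simp only [deg]; omega)),
      ihr (fun i => x (i + l.deg)) (fun i => y (i + l.deg))
        (fun n hn => h _ (by simp only [deg]; omega))]

def Rel (A : Type*) [LieRing A] (s t : Br) : Prop :=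
  ∀ x : ℕ → A, ∃ y : ℕ → A, ev t y = ev s x ∨ ev t y = - ev s x

lemma Rel.trans {A : Type*} [LieRing A] {s t r : Br} (h1 : Rel A s t) (h2 : Rel A t r) :
    Rel A s r := by
  intro x
  obtain ⟨y, hy⟩ := h1 x
  obtain ⟨z, hz⟩ := h2 y
  refine ⟨z, ?_⟩
  rcases hy with hy | hy <;> rcases hz with hz | hz <;> rw [hz, hy] <;> simp

lemma rel_comm {A : Type*} [LieRing A] (s t : Br) : Rel A (node s t) (node t s) := by
  intro x
  refine ⟨fun n => if n < t.deg then x (n + s.deg) else x (n - t.deg), Or.inr ?_⟩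
  simp only [ev]
  rw [ev_congr t (fun n => if n < t.deg then x (n + s.deg) else x (n - t.deg))
      (fun i => x (i + s.deg)) (fun n hn => by simp [hn]),
    ev_congr s (fun i => (if i + t.deg < t.deg then x (i + t.deg + s.deg)
      else x (i + t.deg - t.deg))) x (fun n hn => by simp)]
  rw [← lie_skew]

lemma rel_congr {A : Type*} [LieRing A] {s s' t t' : Br} (h1 : Rel A s s') (h2 : Rel A t t') :
    Rel A (node s t) (node s' t') := by
  intro x
  obtain ⟨y, hy⟩ := h1 x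
  obtain ⟨z, hz⟩ := h2 (fun i => x (i + s.deg))
  refine ⟨fun n => if n < s'.deg then y n else z (n - s'.deg), ?_⟩
  simp only [ev]
  rw [ev_congr s' (fun n => if n < s'.deg then y n else z (n - s'.deg)) y
      (fun n hn => by simp [hn]),
    ev_congr t' (fun i => (if i + s'.deg < s'.deg then y (i + s'.deg)
      else z (i + s'.deg - s'.deg))) z (fun n hn => by simp)]
  rcases hy with hy | hy <;> rcases hz with hz | hz <;> rw [hz, hy] <;> simp

lemma CEq.rel {A : Type*} [LieRing A] {s t : Br} (h : CEq s t) : Rel A s t ∧ Rel A t s := by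
  induction h with
  | refl s => exact ⟨fun x => ⟨x, Or.inl rfl⟩, fun x => ⟨x, Or.inl rfl⟩⟩
  | symm _ ih => exact ⟨ih.2, ih.1⟩
  | trans _ _ ih1 ih2 => exact ⟨ih1.1.trans ih2.1, ih2.2.trans ih1.2⟩
  | comm s t => exact ⟨rel_comm s t, rel_comm t s⟩
  | congr _ _ ih1 ih2 => exact ⟨rel_congr ih1.1 ih2.1, rel_congr ih1.2 ih2.2⟩

lemma holds_of_rel {A : Type*} [LieRing A] {s t : Br} (h : Rel A s t) (ht : Holds A t) :
    Holds A s := by
  intro x
  obtain ⟨y, hy⟩ := h x
  rw [ht y] at hy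
  rcases hy with hy | hy
  · exact hy.symm
  · exact neg_eq_zero.mp hy.symm

lemma CEq.holds {A : Type*} [LieRing A] {s t : Br} (h : CEq s t) : Holds A s ↔ Holds A t :=
  ⟨holds_of_rel h.rel.2, holds_of_rel h.rel.1⟩

/-! ### the Lie algebras `K × R × R × M` -/

section alg

variable {K R M : Type u} [Field K] [CommRing R] [CommRing M] [Algebra K R] [Algebra K M]

/-- the underlying space `K × R × R × M` -/
@[ext] structure G (q : R →ₐ[K] M) (x y : R) : Type u where
  a : K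
  f : R
  g : R
  h : M

variable {q : R →ₐ[K] M} {x y : R}

namespace G

instance : Zero (G q x y) := ⟨⟨0, 0, 0, 0⟩⟩
instance : Add (G q x y) := ⟨fun u v => ⟨u.a + v.a, u.f + v.f, u.g + v.g, u.h + v.h⟩⟩
instance : Neg (G q x y) := ⟨fun u => ⟨-u.a, -u.f, -u.g, -u.h⟩⟩
instance : Sub (G q x y) := ⟨fun u v => ⟨u.a - v.a, u.f - v.f, u.g - v.g, u.h - v.h⟩⟩
instance : SMul K (G q x y) := ⟨fun c u => ⟨c * u.a, c • u.f, c • u.g, c • u.h⟩⟩
instance : Bracket (G q x y) (G q x y) := ⟨fun u v =>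
  ⟨0, u.a • (x * v.f) - v.a • (x * u.f), u.a • (y * v.g) - v.a • (y * u.g),
    u.a • (q (x + y) * v.h) - v.a • (q (x + y) * u.h) + q (u.f * v.g - v.f * u.g)⟩⟩

@[simp] lemma zero_a : (0 : G q x y).a = 0 := rfl
@[simp] lemma zero_f : (0 : G q x y).f = 0 := rfl
@[simp] lemma zero_g : (0 : G q x y).g = 0 := rfl
@[simp] lemma zero_h : (0 : G q x y).h = 0 := rfl
@[simp] lemma add_a (u v : G q x y) : (u + v).a = u.a + v.a := rfl
@[simp] lemma add_f (u v : G q x y) : (u + v).f = u.f + v.f := rfl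
@[simp] lemma add_g (u v : G q x y) : (u + v).g = u.g + v.g := rfl
@[simp] lemma add_h (u v : G q x y) : (u + v).h = u.h + v.h := rfl
@[simp] lemma neg_a (u : G q x y) : (-u).a = -u.a := rfl
@[simp] lemma neg_f (u : G q x y) : (-u).f = -u.f := rfl
@[simp] lemma neg_g (u : G q x y) : (-u).g = -u.g := rfl
@[simp] lemma neg_h (u : G q x y) : (-u).h = -u.h := rfl
@[simp] lemma sub_a (u v : G q x y) : (u - v).a = u.a - v.a := rfl
@[simp] lemma sub_f (u v : G q x y) : (u - v).f = u.f - v.f := rfl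
@[simp] lemma sub_g (u v : G q x y) : (u - v).g = u.g - v.g := rfl
@[simp] lemma sub_h (u v : G q x y) : (u - v).h = u.h - v.h := rfl
@[simp] lemma smul_a (c : K) (u : G q x y) : (c • u).a = c * u.a := rfl
@[simp] lemma smul_f (c : K) (u : G q x y) : (c • u).f = c • u.f := rfl
@[simp] lemma smul_g (c : K) (u : G q x y) : (c • u).g = c • u.g := rfl
@[simp] lemma smul_h (c : K) (u : G q x y) : (c • u).h = c • u.h := rfl
@[simp] lemma br_a (u v : G q x y) : (⁅u, v⁆ : G q x y).a = 0 := rfl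
@[simp] lemma br_f (u v : G q x y) :
    (⁅u, v⁆ : G q x y).f = u.a • (x * v.f) - v.a • (x * u.f) := rfl
@[simp] lemma br_g (u v : G q x y) :
    (⁅u, v⁆ : G q x y).g = u.a • (y * v.g) - v.a • (y * u.g) := rfl
@[simp] lemma br_h (u v : G q x y) : (⁅u, v⁆ : G q x y).h =
    u.a • (q (x + y) * v.h) - v.a • (q (x + y) * u.h) + q (u.f * v.g - v.f * u.g) := rfl

instance : AddCommGroup (G q x y) where
  add_assoc u v w := by ext <;> simp [add_assoc]
  zero_add u := by ext <;> simp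
  add_zero u := by ext <;> simp
  nsmul := nsmulRec
  zsmul := zsmulRec
  sub_eq_add_neg u v := by ext <;> simp [sub_eq_add_neg]
  neg_add_cancel u := by ext <;> simp
  add_comm u v := by ext <;> simp [add_comm]

instance : Module K (G q x y) where
  one_smul u := by ext <;> simp
  mul_smul c d u := by ext <;> simp [mul_smul, mul_assoc]
  smul_zero c := by ext <;> simp
  smul_add c u v := by ext <;> simp [mul_add]
  add_smul c d u := by ext <;> simp [add_smul, add_mul]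
  zero_smul u := by ext <;> simp

instance : LieRing (G q x y) where
  add_lie u v w := by
    ext
    · simp
    · simp only [br_f, add_f, add_a, Algebra.smul_def, map_add]; ring
    · simp only [br_g, add_g, add_a, Algebra.smul_def, map_add]; ring
    · simp only [br_h, add_h, add_f, add_g, add_a, Algebra.smul_def, map_add, map_sub, map_mul]
      ring
  lie_add u v w := by
    ext
    · simp
    · simp only [br_f, add_f, add_a, Algebra.smul_def, map_add]; ring
    · simp only [br_g, add_g, add_a, Algebra.smul_def, map_add]; ring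
    · simp only [br_h, add_h, add_f, add_g, add_a, Algebra.smul_def, map_add, map_sub, map_mul]
      ring
  lie_self u := by
    ext
    · simp
    · simp
    · simp
    · simp [mul_comm]
  leibniz_lie u v w := by
    ext
    · simp
    · simp only [br_f, br_a, add_f, Algebra.smul_def, map_zero]; ring
    · simp only [br_g, br_a, add_g, Algebra.smul_def, map_zero]; ring
    · simp only [br_h, br_f, br_g, br_a, add_h, Algebra.smul_def, map_zero, map_add, map_sub,
        map_mul, AlgHom.commutes]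
      ring

instance : LieAlgebra K (G q x y) where
  lie_smul c u v := by
    ext
    · simp
    · simp only [br_f, smul_f, smul_a, Algebra.smul_def, map_mul]; ring
    · simp only [br_g, smul_g, smul_a, Algebra.smul_def, map_mul]; ring
    · simp only [br_h, smul_h, smul_f, smul_g, smul_a, Algebra.smul_def, map_add, map_sub,
        map_mul, AlgHom.commutes]
      ring

end G

namespace G

/-! #### vanishing -/

lemma ev_a (s : Br) (hs : s ≠ leaf) (z : ℕ → G q x y) : (ev s z).a = 0 := by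
  cases s with
  | leaf => exact absurd rfl hs
  | node l r => rfl

lemma ev_a' (s : Br) (hs : 1 ≤ s.cherries) (z : ℕ → G q x y) : (ev s z).a = 0 := by
  apply ev_a
  rintro rfl
  simp [cherries] at hs

lemma ev_fg (s : Br) (hs : 2 ≤ s.cherries) (z : ℕ → G q x y) :
    (ev s z).f = 0 ∧ (ev s z).g = 0 := by
  induction s generalizing z with
  | leaf => simp [cherries] at hs
  | node l r ihl ihr =>
    have hn : ¬ (l = leaf ∧ r = leaf) := by
      rintro ⟨rfl, rfl⟩
      simp [cherries] at hs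
    rw [cherries_node _ _ hn] at hs
    simp only [ev, br_f, br_g]
    by_cases h1 : 1 ≤ l.cherries
    · by_cases h2 : 1 ≤ r.cherries
      · rw [ev_a' l h1, ev_a' r h2]; simp
      · obtain ⟨e1, e2⟩ := ihl (by omega) z
        rw [ev_a' l h1, e1, e2]; simp
    · obtain ⟨e1, e2⟩ := ihr (by omega) (fun i => z (i + l.deg))
      rw [ev_a' r (by omega), e1, e2]; simp

lemma ev_zero (s : Br) (hs : 3 ≤ s.cherries) (z : ℕ → G q x y) : ev s z = 0 := by
  induction s generalizing z with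
  | leaf => simp [cherries] at hs
  | node l r ihl ihr =>
    have hn : ¬ (l = leaf ∧ r = leaf) := by
      rintro ⟨rfl, rfl⟩
      simp [cherries] at hs
    rw [cherries_node _ _ hn] at hs
    simp only [ev]
    by_cases h3 : 3 ≤ l.cherries
    · rw [ihl h3]; simp
    by_cases h4 : 3 ≤ r.cherries
    · rw [ihr h4]; simp
    have a1 : (ev l z).a = 0 := ev_a' l (by omega) z
    have a2 : (ev r (fun i => z (i + l.deg))).a = 0 := ev_a' r (by omega) _
    ext
    · rfl
    · simp [a1, a2]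
    · simp [a1, a2]
    · simp only [br_h, a1, a2, zero_smul, sub_zero, zero_add, zero_h]
      by_cases h5 : 2 ≤ l.cherries
      · obtain ⟨e1, e2⟩ := ev_fg l h5 z
        rw [e1, e2]; simp
      · obtain ⟨e1, e2⟩ := ev_fg r (by omega) (fun i => z (i + l.deg))
        rw [e1, e2]; simp

lemma cat_form (m : ℕ) (z : ℕ → G q x y) :
    ∃ φ γ : R, (ev (cat m) z).f = x ^ (m + 1) * φ ∧ (ev (cat m) z).g = y ^ (m + 1) * γ := by
  induction m with
  | zero =>
    refine ⟨(z 0).a • (z 1).f - (z 1).a • (z 0).f, (z 0).a • (z 1).g - (z 1).a • (z 0).g, ?_, ?_⟩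
    · simp only [cat, hang, ev, deg, br_f, Algebra.smul_def]; ring
    · simp only [cat, hang, ev, deg, br_g, Algebra.smul_def]; ring
  | succ m ih =>
    obtain ⟨φ, γ, h1, h2⟩ := ih
    have ha : (ev (cat m) z).a = 0 := by
      apply ev_a
      cases m <;> simp [cat, hang]
    have e : ev (cat (m + 1)) z = ⁅ev (cat m) z, z (0 + (cat m).deg)⁆ := rfl
    refine ⟨-((z (0 + (cat m).deg)).a • φ), -((z (0 + (cat m).deg)).a • γ), ?_, ?_⟩
    · rw [e, br_f, ha, h1, zero_smul, zero_sub]; simp only [Algebra.smul_def]; ring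
    · rw [e, br_g, ha, h2, zero_smul, zero_sub]; simp only [Algebra.smul_def]; ring

lemma hang_h (t : Br) (ht : 2 ≤ t.cherries) (k : ℕ) (z : ℕ → G q x y) :
    ∃ c : K, (ev (hang t k) z) = ⟨0, 0, 0, c • (q (x + y) ^ k * (ev t z).h)⟩ := by
  induction k with
  | zero =>
    refine ⟨1, ?_⟩
    ext
    · exact ev_a' t (by omega) z
    · exact (ev_fg t ht z).1
    · exact (ev_fg t ht z).2
    · simp [hang]
  | succ k ih =>
    obtain ⟨c, hc⟩ := ih
    have e : ev (hang t (k + 1)) z = ⁅ev (hang t k) z, z (0 + (hang t k).deg)⁆ := rfl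
    refine ⟨-((z (0 + (hang t k).deg)).a * c), ?_⟩
    rw [e, hc]
    ext
    · rfl
    · simp
    · simp
    · simp only [br_h, zero_smul, zero_sub, Algebra.smul_def, map_neg, map_mul, zero_mul, mul_zero,
        sub_zero, map_zero, add_zero]
      ring

lemma cherries_node_cat (i j : ℕ) : 2 ≤ (node (cat i) (cat j)).cherries := by
  rw [cherries_node]
  · have h : ∀ m, 1 ≤ (cat m).cherries := by
      intro m; cases m <;> exact cherries_pos _ _
    have := h i
    have := h j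
    omega
  · rintro ⟨h, _⟩
    cases i <;> simp [cat, hang] at h

/-- The identity of a bracket structure with two cherries holds. -/
lemma holds_two (i j k : ℕ)
    (h1 : q ((x + y) ^ k * (x ^ (i + 1) * y ^ (j + 1))) = 0)
    (h2 : q ((x + y) ^ k * (x ^ (j + 1) * y ^ (i + 1))) = 0) :
    Holds (G q x y) (two i j k) := by
  intro z
  obtain ⟨c, hc⟩ := hang_h (node (cat i) (cat j)) (cherries_node_cat i j) k z
  rw [two, hc]
  obtain ⟨φ, γ, e1, e2⟩ := cat_form i z
  obtain ⟨φ', γ', e3, e4⟩ := cat_form j (fun n => z (n + (cat i).deg))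
  have a1 : (ev (cat i) z).a = 0 := ev_a _ (by cases i <;> simp [cat, hang]) _
  have a2 : (ev (cat j) (fun n => z (n + (cat i).deg))).a = 0 :=
    ev_a _ (by cases j <;> simp [cat, hang]) _
  ext
  · rfl
  · rfl
  · rfl
  · simp only [ev, br_h, a1, a2, e1, e2, e3, e4, zero_smul, sub_zero, zero_add, zero_h]
    have : q (x + y) ^ k * q (x ^ (i + 1) * φ * (y ^ (j + 1) * γ') -
        x ^ (j + 1) * φ' * (y ^ (i + 1) * γ)) =
        q ((x + y) ^ k * (x ^ (i + 1) * y ^ (j + 1))) * q (φ * γ') -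
        q ((x + y) ^ k * (x ^ (j + 1) * y ^ (i + 1))) * q (φ' * γ) := by
      simp only [map_mul, map_sub, map_pow]; ring
    rw [this, h1, h2]; simp

/-! #### non-vanishing -/

def A1 : G q x y := ⟨1, 0, 0, 0⟩
def B1 : G q x y := ⟨0, 1, 0, 0⟩
def B2 : G q x y := ⟨0, 0, 1, 0⟩

lemma cat_val1 (m : ℕ) (z : ℕ → G q x y) (h0 : z 0 = B1)
    (hz : ∀ n, 1 ≤ n → n < m + 2 → z n = A1) :
    ev (cat m) z = ⟨0, (-x) ^ (m + 1), 0, 0⟩ := by
  induction m with
  | zero =>
    have e : ev (cat 0) z = ⁅z 0, z (0 + 1)⁆ := rfl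
    rw [e, h0, hz (0 + 1) (by omega) (by omega)]
    ext <;> simp [A1, B1]
  | succ m ih =>
    have e : ev (cat (m + 1)) z = ⁅ev (cat m) z, z (0 + (cat m).deg)⁆ := rfl
    rw [e, ih (fun n h1 h2 => hz n h1 (by omega)), deg_cat, hz _ (by omega) (by omega)]
    ext
    · simp [A1]
    · simp [A1]; ring
    · simp [A1]
    · simp [A1]

lemma cat_val2 (m : ℕ) (z : ℕ → G q x y) (h0 : z 0 = B2)
    (hz : ∀ n, 1 ≤ n → n < m + 2 → z n = A1) :
    ev (cat m) z = ⟨0, 0, (-y) ^ (m + 1), 0⟩ := by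
  induction m with
  | zero =>
    have e : ev (cat 0) z = ⁅z 0, z (0 + 1)⁆ := rfl
    rw [e, h0, hz (0 + 1) (by omega) (by omega)]
    ext <;> simp [A1, B2]
  | succ m ih =>
    have e : ev (cat (m + 1)) z = ⁅ev (cat m) z, z (0 + (cat m).deg)⁆ := rfl
    rw [e, ih (fun n h1 h2 => hz n h1 (by omega)), deg_cat, hz _ (by omega) (by omega)]
    ext
    · simp [A1]
    · simp [A1]
    · simp [A1]; ring
    · simp [A1]

/-- The substitution. -/
def sub (i : ℕ) : ℕ → G q x y := fun n => if n = 0 then B1 else if n = i + 2 then B2 else A1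

lemma two_val (i j k : ℕ) : ev (two i j k) (sub i : ℕ → G q x y) =
    ⟨0, 0, 0, (-q (x + y)) ^ k * q ((-x) ^ (i + 1) * (-y) ^ (j + 1))⟩ := by
  induction k with
  | zero =>
    have e : ev (two i j 0) (sub i : ℕ → G q x y) =
      ⁅ev (cat i) (sub i), ev (cat j) (fun n => sub i (n + (cat i).deg))⁆ := rfl
    rw [e, cat_val1 i _ (by simp [sub]) (fun n h1 h2 => by
        simp only [sub]; rw [if_neg (by omega), if_neg (by omega)]),
      cat_val2 j _ (by simp [sub, deg_cat]) (fun n h1 h2 => by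
        simp only [sub, deg_cat]; rw [if_neg (by omega), if_neg (by omega)])]
    ext <;> simp
  | succ k ih =>
    have e : ev (two i j (k + 1)) (sub i : ℕ → G q x y) =
      ⁅ev (two i j k) (sub i), sub i (0 + (two i j k).deg)⁆ := rfl
    rw [e, ih]
    have : (sub i (0 + (two i j k).deg) : G q x y) = A1 := by
      simp only [sub, deg_two]; rw [if_neg (by omega), if_neg (by omega)]
    rw [this]
    ext
    · simp [A1]
    · simp [A1]
    · simp [A1]
    · simp only [br_h, A1, zero_smul, zero_sub, one_smul, mul_zero, sub_zero, zero_mul, map_zero,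
        add_zero]
      ring

end G

end alg


/-! ### the second family of Lie algebras -/

section alg3

variable {K R M : Type u} [Field K] [CommRing R] [CommRing M] [Algebra K R] [Algebra K M]

/-- the underlying space `K × R^3 × R^3 × M` -/
@[ext] structure H (q : R →ₐ[K] M) (t1 t2 t3 c1 c2 c3 : R) : Type u where
  a : K
  f1 : R
  f2 : R
  f3 : R
  u12 : R
  u13 : R
  u23 : R
  h : M

variable {q : R →ₐ[K] M} {t1 t2 t3 c1 c2 c3 : R}

namespace H


instance : Zero (H q t1 t2 t3 c1 c2 c3) := ⟨⟨0, 0, 0, 0, 0, 0, 0, 0⟩⟩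
instance : Add (H q t1 t2 t3 c1 c2 c3) := ⟨fun u v => ⟨u.a + v.a, u.f1 + v.f1, u.f2 + v.f2, u.f3 + v.f3,
  u.u12 + v.u12, u.u13 + v.u13, u.u23 + v.u23, u.h + v.h⟩⟩
instance : Neg (H q t1 t2 t3 c1 c2 c3) := ⟨fun u => ⟨-u.a, -u.f1, -u.f2, -u.f3, -u.u12, -u.u13, -u.u23, -u.h⟩⟩
instance : Sub (H q t1 t2 t3 c1 c2 c3) := ⟨fun u v => ⟨u.a - v.a, u.f1 - v.f1, u.f2 - v.f2, u.f3 - v.f3,
  u.u12 - v.u12, u.u13 - v.u13, u.u23 - v.u23, u.h - v.h⟩⟩
instance : SMul K (H q t1 t2 t3 c1 c2 c3) := ⟨fun c u => ⟨c * u.a, c • u.f1, c • u.f2, c • u.f3,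
  c • u.u12, c • u.u13, c • u.u23, c • u.h⟩⟩
instance : Bracket (H q t1 t2 t3 c1 c2 c3) (H q t1 t2 t3 c1 c2 c3) := ⟨fun u v =>
  ⟨0, u.a • (t1 * v.f1) - v.a • (t1 * u.f1), u.a • (t2 * v.f2) - v.a • (t2 * u.f2),
    u.a • (t3 * v.f3) - v.a • (t3 * u.f3),
    u.a • ((t1 + t2) * v.u12) - v.a • ((t1 + t2) * u.u12) + (u.f1 * v.f2 - u.f2 * v.f1),
    u.a • ((t1 + t3) * v.u13) - v.a • ((t1 + t3) * u.u13) + (u.f1 * v.f3 - u.f3 * v.f1),
    u.a • ((t2 + t3) * v.u23) - v.a • ((t2 + t3) * u.u23) + (u.f2 * v.f3 - u.f3 * v.f2),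
    u.a • (q (t1 + t2 + t3) * v.h) - v.a • (q (t1 + t2 + t3) * u.h) +
      q ((c1 - c2) * (u.u12 * v.f3 - v.u12 * u.f3) + (c1 - c3) * (u.u13 * v.f2 - v.u13 * u.f2) +
        (c2 - c3) * (u.u23 * v.f1 - v.u23 * u.f1))⟩⟩

@[simp] lemma zero_a : (0 : (H q t1 t2 t3 c1 c2 c3)).a = 0 := rfl
@[simp] lemma zero_f1 : (0 : (H q t1 t2 t3 c1 c2 c3)).f1 = 0 := rfl
@[simp] lemma zero_f2 : (0 : (H q t1 t2 t3 c1 c2 c3)).f2 = 0 := rfl
@[simp] lemma zero_f3 : (0 : (H q t1 t2 t3 c1 c2 c3)).f3 = 0 := rfl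
@[simp] lemma zero_u12 : (0 : (H q t1 t2 t3 c1 c2 c3)).u12 = 0 := rfl
@[simp] lemma zero_u13 : (0 : (H q t1 t2 t3 c1 c2 c3)).u13 = 0 := rfl
@[simp] lemma zero_u23 : (0 : (H q t1 t2 t3 c1 c2 c3)).u23 = 0 := rfl
@[simp] lemma zero_h : (0 : (H q t1 t2 t3 c1 c2 c3)).h = 0 := rfl
@[simp] lemma add_a (u v : (H q t1 t2 t3 c1 c2 c3)) : (u + v).a = u.a + v.a := rfl
@[simp] lemma add_f1 (u v : (H q t1 t2 t3 c1 c2 c3)) : (u + v).f1 = u.f1 + v.f1 := rfl
@[simp] lemma add_f2 (u v : (H q t1 t2 t3 c1 c2 c3)) : (u + v).f2 = u.f2 + v.f2 := rfl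
@[simp] lemma add_f3 (u v : (H q t1 t2 t3 c1 c2 c3)) : (u + v).f3 = u.f3 + v.f3 := rfl
@[simp] lemma add_u12 (u v : (H q t1 t2 t3 c1 c2 c3)) : (u + v).u12 = u.u12 + v.u12 := rfl
@[simp] lemma add_u13 (u v : (H q t1 t2 t3 c1 c2 c3)) : (u + v).u13 = u.u13 + v.u13 := rfl
@[simp] lemma add_u23 (u v : (H q t1 t2 t3 c1 c2 c3)) : (u + v).u23 = u.u23 + v.u23 := rfl
@[simp] lemma add_h (u v : (H q t1 t2 t3 c1 c2 c3)) : (u + v).h = u.h + v.h := rfl
@[simp] lemma neg_a (u : (H q t1 t2 t3 c1 c2 c3)) : (-u).a = -u.a := rfl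
@[simp] lemma neg_f1 (u : (H q t1 t2 t3 c1 c2 c3)) : (-u).f1 = -u.f1 := rfl
@[simp] lemma neg_f2 (u : (H q t1 t2 t3 c1 c2 c3)) : (-u).f2 = -u.f2 := rfl
@[simp] lemma neg_f3 (u : (H q t1 t2 t3 c1 c2 c3)) : (-u).f3 = -u.f3 := rfl
@[simp] lemma neg_u12 (u : (H q t1 t2 t3 c1 c2 c3)) : (-u).u12 = -u.u12 := rfl
@[simp] lemma neg_u13 (u : (H q t1 t2 t3 c1 c2 c3)) : (-u).u13 = -u.u13 := rfl
@[simp] lemma neg_u23 (u : (H q t1 t2 t3 c1 c2 c3)) : (-u).u23 = -u.u23 := rfl
@[simp] lemma neg_h (u : (H q t1 t2 t3 c1 c2 c3)) : (-u).h = -u.h := rfl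
@[simp] lemma sub_a (u v : (H q t1 t2 t3 c1 c2 c3)) : (u - v).a = u.a - v.a := rfl
@[simp] lemma sub_f1 (u v : (H q t1 t2 t3 c1 c2 c3)) : (u - v).f1 = u.f1 - v.f1 := rfl
@[simp] lemma sub_f2 (u v : (H q t1 t2 t3 c1 c2 c3)) : (u - v).f2 = u.f2 - v.f2 := rfl
@[simp] lemma sub_f3 (u v : (H q t1 t2 t3 c1 c2 c3)) : (u - v).f3 = u.f3 - v.f3 := rfl
@[simp] lemma sub_u12 (u v : (H q t1 t2 t3 c1 c2 c3)) : (u - v).u12 = u.u12 - v.u12 := rfl
@[simp] lemma sub_u13 (u v : (H q t1 t2 t3 c1 c2 c3)) : (u - v).u13 = u.u13 - v.u13 := rfl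
@[simp] lemma sub_u23 (u v : (H q t1 t2 t3 c1 c2 c3)) : (u - v).u23 = u.u23 - v.u23 := rfl
@[simp] lemma sub_h (u v : (H q t1 t2 t3 c1 c2 c3)) : (u - v).h = u.h - v.h := rfl
@[simp] lemma smul_a (c : K) (u : (H q t1 t2 t3 c1 c2 c3)) : (c • u).a = c * u.a := rfl
@[simp] lemma smul_f1 (c : K) (u : (H q t1 t2 t3 c1 c2 c3)) : (c • u).f1 = c • u.f1 := rfl
@[simp] lemma smul_f2 (c : K) (u : (H q t1 t2 t3 c1 c2 c3)) : (c • u).f2 = c • u.f2 := rfl
@[simp] lemma smul_f3 (c : K) (u : (H q t1 t2 t3 c1 c2 c3)) : (c • u).f3 = c • u.f3 := rfl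
@[simp] lemma smul_u12 (c : K) (u : (H q t1 t2 t3 c1 c2 c3)) : (c • u).u12 = c • u.u12 := rfl
@[simp] lemma smul_u13 (c : K) (u : (H q t1 t2 t3 c1 c2 c3)) : (c • u).u13 = c • u.u13 := rfl
@[simp] lemma smul_u23 (c : K) (u : (H q t1 t2 t3 c1 c2 c3)) : (c • u).u23 = c • u.u23 := rfl
@[simp] lemma smul_h (c : K) (u : (H q t1 t2 t3 c1 c2 c3)) : (c • u).h = c • u.h := rfl
@[simp] lemma br_a (u v : (H q t1 t2 t3 c1 c2 c3)) : (⁅u, v⁆ : (H q t1 t2 t3 c1 c2 c3)).a = 0 := rfl
@[simp] lemma br_f1 (u v : (H q t1 t2 t3 c1 c2 c3)) : (⁅u, v⁆ : (H q t1 t2 t3 c1 c2 c3)).f1 = u.a • (t1 * v.f1) - v.a • (t1 * u.f1) := rfl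
@[simp] lemma br_f2 (u v : (H q t1 t2 t3 c1 c2 c3)) : (⁅u, v⁆ : (H q t1 t2 t3 c1 c2 c3)).f2 = u.a • (t2 * v.f2) - v.a • (t2 * u.f2) := rfl
@[simp] lemma br_f3 (u v : (H q t1 t2 t3 c1 c2 c3)) : (⁅u, v⁆ : (H q t1 t2 t3 c1 c2 c3)).f3 = u.a • (t3 * v.f3) - v.a • (t3 * u.f3) := rfl
@[simp] lemma br_u12 (u v : (H q t1 t2 t3 c1 c2 c3)) : (⁅u, v⁆ : (H q t1 t2 t3 c1 c2 c3)).u12 =
    u.a • ((t1 + t2) * v.u12) - v.a • ((t1 + t2) * u.u12) + (u.f1 * v.f2 - u.f2 * v.f1) := rfl
@[simp] lemma br_u13 (u v : (H q t1 t2 t3 c1 c2 c3)) : (⁅u, v⁆ : (H q t1 t2 t3 c1 c2 c3)).u13 =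
    u.a • ((t1 + t3) * v.u13) - v.a • ((t1 + t3) * u.u13) + (u.f1 * v.f3 - u.f3 * v.f1) := rfl
@[simp] lemma br_u23 (u v : (H q t1 t2 t3 c1 c2 c3)) : (⁅u, v⁆ : (H q t1 t2 t3 c1 c2 c3)).u23 =
    u.a • ((t2 + t3) * v.u23) - v.a • ((t2 + t3) * u.u23) + (u.f2 * v.f3 - u.f3 * v.f2) := rfl
@[simp] lemma br_h (u v : (H q t1 t2 t3 c1 c2 c3)) : (⁅u, v⁆ : (H q t1 t2 t3 c1 c2 c3)).h =
    u.a • (q (t1 + t2 + t3) * v.h) - v.a • (q (t1 + t2 + t3) * u.h) +
      q ((c1 - c2) * (u.u12 * v.f3 - v.u12 * u.f3) + (c1 - c3) * (u.u13 * v.f2 - v.u13 * u.f2) +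
        (c2 - c3) * (u.u23 * v.f1 - v.u23 * u.f1)) := rfl

instance : AddCommGroup (H q t1 t2 t3 c1 c2 c3) where
  add_assoc u v w := by ext <;> simp [add_assoc]
  zero_add u := by ext <;> simp
  add_zero u := by ext <;> simp
  nsmul := nsmulRec
  zsmul := zsmulRec
  sub_eq_add_neg u v := by ext <;> simp [sub_eq_add_neg]
  neg_add_cancel u := by ext <;> simp
  add_comm u v := by ext <;> simp [add_comm]

instance : Module K (H q t1 t2 t3 c1 c2 c3) where
  one_smul u := by ext <;> simp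
  mul_smul c d u := by ext <;> simp [mul_smul, mul_assoc]
  smul_zero c := by ext <;> simp
  smul_add c u v := by ext <;> simp [mul_add]
  add_smul c d u := by ext <;> simp [add_smul, add_mul]
  zero_smul u := by ext <;> simp

instance : LieRing (H q t1 t2 t3 c1 c2 c3) where
  add_lie u v w := by
    ext <;> simp only [br_a, br_f1, br_f2, br_f3, br_u12, br_u13, br_u23, br_h, add_a, add_f1,
      add_f2, add_f3, add_u12, add_u13, add_u23, add_h, Algebra.smul_def, map_add, map_sub,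
      map_mul, add_zero] <;> ring
  lie_add u v w := by
    ext <;> simp only [br_a, br_f1, br_f2, br_f3, br_u12, br_u13, br_u23, br_h, add_a, add_f1,
      add_f2, add_f3, add_u12, add_u13, add_u23, add_h, Algebra.smul_def, map_add, map_sub,
      map_mul, add_zero] <;> ring
  lie_self u := by
    ext <;> simp only [br_a, br_f1, br_f2, br_f3, br_u12, br_u13, br_u23, br_h, zero_a, zero_f1,
      zero_f2, zero_f3, zero_u12, zero_u13, zero_u23, zero_h, Algebra.smul_def, map_add, map_sub,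
      map_mul] <;> ring
  leibniz_lie u v w := by
    ext <;> simp only [br_a, br_f1, br_f2, br_f3, br_u12, br_u13, br_u23, br_h, add_a, add_f1,
      add_f2, add_f3, add_u12, add_u13, add_u23, add_h, Algebra.smul_def, map_add, map_sub,
      map_mul, map_zero, AlgHom.commutes, add_zero] <;> ring

instance : LieAlgebra K (H q t1 t2 t3 c1 c2 c3) where
  lie_smul c u v := by
    ext <;> simp only [br_a, br_f1, br_f2, br_f3, br_u12, br_u13, br_u23, br_h, smul_a, smul_f1,
      smul_f2, smul_f3, smul_u12, smul_u13, smul_u23, smul_h, Algebra.smul_def, map_add, map_sub,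
      map_mul, AlgHom.commutes, mul_zero] <;> ring

/-! #### vanishing -/

lemma ev_a (s : Br) (hs : s ≠ leaf) (z : ℕ → (H q t1 t2 t3 c1 c2 c3)) : (ev s z).a = 0 := by
  cases s with
  | leaf => exact absurd rfl hs
  | node l r => rfl

lemma ev_a' (s : Br) (hs : 1 ≤ s.cherries) (z : ℕ → (H q t1 t2 t3 c1 c2 c3)) : (ev s z).a = 0 := by
  apply ev_a
  rintro rfl
  simp [cherries] at hs

lemma ev_f (s : Br) (hs : 2 ≤ s.cherries) (z : ℕ → (H q t1 t2 t3 c1 c2 c3)) :
    (ev s z).f1 = 0 ∧ (ev s z).f2 = 0 ∧ (ev s z).f3 = 0 := by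
  induction s generalizing z with
  | leaf => simp [cherries] at hs
  | node l r ihl ihr =>
    have hn : ¬ (l = leaf ∧ r = leaf) := by
      rintro ⟨rfl, rfl⟩
      simp [cherries] at hs
    rw [cherries_node _ _ hn] at hs
    simp only [ev, br_f1, br_f2, br_f3]
    by_cases h1 : 1 ≤ l.cherries
    · by_cases h2 : 1 ≤ r.cherries
      · rw [ev_a' l h1, ev_a' r h2]; simp
      · obtain ⟨e1, e2, e3⟩ := ihl (by omega) z
        rw [ev_a' l h1, e1, e2, e3]; simp
    · obtain ⟨e1, e2, e3⟩ := ihr (by omega) (fun i => z (i + l.deg))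
      rw [ev_a' r (by omega), e1, e2, e3]; simp

lemma ev_u (s : Br) (hs : 3 ≤ s.cherries) (z : ℕ → (H q t1 t2 t3 c1 c2 c3)) :
    (ev s z).u12 = 0 ∧ (ev s z).u13 = 0 ∧ (ev s z).u23 = 0 := by
  induction s generalizing z with
  | leaf => simp [cherries] at hs
  | node l r ihl ihr =>
    have hn : ¬ (l = leaf ∧ r = leaf) := by
      rintro ⟨rfl, rfl⟩
      simp [cherries] at hs
    rw [cherries_node _ _ hn] at hs
    simp only [ev, br_u12, br_u13, br_u23]
    have c1 : (ev l z).a = 0 ∨ ((ev r (fun i => z (i + l.deg))).u12 = 0 ∧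
        (ev r (fun i => z (i + l.deg))).u13 = 0 ∧ (ev r (fun i => z (i + l.deg))).u23 = 0) := by
      by_cases h1 : 1 ≤ l.cherries
      · exact Or.inl (ev_a' l h1 z)
      · exact Or.inr (ihr (by omega) _)
    have c2 : (ev r (fun i => z (i + l.deg))).a = 0 ∨ ((ev l z).u12 = 0 ∧ (ev l z).u13 = 0 ∧
        (ev l z).u23 = 0) := by
      by_cases h1 : 1 ≤ r.cherries
      · exact Or.inl (ev_a' r h1 _)
      · exact Or.inr (ihl (by omega) _)
    have c3 : ((ev l z).f1 = 0 ∧ (ev l z).f2 = 0 ∧ (ev l z).f3 = 0) ∨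
        ((ev r (fun i => z (i + l.deg))).f1 = 0 ∧ (ev r (fun i => z (i + l.deg))).f2 = 0 ∧
          (ev r (fun i => z (i + l.deg))).f3 = 0) := by
      by_cases h1 : 2 ≤ l.cherries
      · exact Or.inl (ev_f l h1 z)
      · exact Or.inr (ev_f r (by omega) _)
    rcases c1 with c1 | ⟨c1, c1', c1''⟩ <;> rcases c2 with c2 | ⟨c2, c2', c2''⟩ <;>
      rcases c3 with ⟨c3, c3', c3''⟩ | ⟨c3, c3', c3''⟩ <;> simp [*]

lemma ev_h (s : Br) (hs : 4 ≤ s.cherries) (z : ℕ → (H q t1 t2 t3 c1 c2 c3)) : (ev s z).h = 0 := by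
  induction s generalizing z with
  | leaf => simp [cherries] at hs
  | node l r ihl ihr =>
    have hn : ¬ (l = leaf ∧ r = leaf) := by
      rintro ⟨rfl, rfl⟩
      simp [cherries] at hs
    rw [cherries_node _ _ hn] at hs
    simp only [ev, br_h]
    have c1 : (ev l z).a = 0 ∨ (ev r (fun i => z (i + l.deg))).h = 0 := by
      by_cases h1 : 1 ≤ l.cherries
      · exact Or.inl (ev_a' l h1 z)
      · exact Or.inr (ihr (by omega) _)
    have c2 : (ev r (fun i => z (i + l.deg))).a = 0 ∨ (ev l z).h = 0 := by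
      by_cases h1 : 1 ≤ r.cherries
      · exact Or.inl (ev_a' r h1 _)
      · exact Or.inr (ihl (by omega) _)
    have c3 : ((ev l z).u12 = 0 ∧ (ev l z).u13 = 0 ∧ (ev l z).u23 = 0) ∨
        ((ev r (fun i => z (i + l.deg))).f1 = 0 ∧ (ev r (fun i => z (i + l.deg))).f2 = 0 ∧
          (ev r (fun i => z (i + l.deg))).f3 = 0) := by
      by_cases h1 : 3 ≤ l.cherries
      · exact Or.inl (ev_u l h1 z)
      · exact Or.inr (ev_f r (by omega) _)
    have c4 : ((ev r (fun i => z (i + l.deg))).u12 = 0 ∧ (ev r (fun i => z (i + l.deg))).u13 = 0 ∧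
        (ev r (fun i => z (i + l.deg))).u23 = 0) ∨
        ((ev l z).f1 = 0 ∧ (ev l z).f2 = 0 ∧ (ev l z).f3 = 0) := by
      by_cases h1 : 3 ≤ r.cherries
      · exact Or.inl (ev_u r h1 _)
      · exact Or.inr (ev_f l (by omega) _)
    rcases c1 with c1 | c1 <;> rcases c2 with c2 | c2 <;>
      rcases c3 with ⟨c3, c3', c3''⟩ | ⟨c3, c3', c3''⟩ <;>
      rcases c4 with ⟨c4, c4', c4''⟩ | ⟨c4, c4', c4''⟩ <;> simp [*]

lemma ev_zero (s : Br) (hs : 4 ≤ s.cherries) (z : ℕ → (H q t1 t2 t3 c1 c2 c3)) : ev s z = 0 := by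
  obtain ⟨e1, e2, e3⟩ := ev_f s (by omega) z
  obtain ⟨e4, e5, e6⟩ := ev_u s (by omega) z
  exact H.ext (ev_a' s (by omega) z) e1 e2 e3 e4 e5 e6 (ev_h s hs z)

lemma cat_form (m : ℕ) (z : ℕ → (H q t1 t2 t3 c1 c2 c3)) :
    ∃ φ1 φ2 φ3 : R, (ev (cat m) z).f1 = t1 ^ (m + 1) * φ1 ∧
      (ev (cat m) z).f2 = t2 ^ (m + 1) * φ2 ∧ (ev (cat m) z).f3 = t3 ^ (m + 1) * φ3 := by
  induction m with
  | zero =>
    refine ⟨(z 0).a • (z 1).f1 - (z 1).a • (z 0).f1, (z 0).a • (z 1).f2 - (z 1).a • (z 0).f2,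
      (z 0).a • (z 1).f3 - (z 1).a • (z 0).f3, ?_, ?_, ?_⟩
    · simp only [cat, hang, ev, deg, br_f1, Algebra.smul_def]; ring
    · simp only [cat, hang, ev, deg, br_f2, Algebra.smul_def]; ring
    · simp only [cat, hang, ev, deg, br_f3, Algebra.smul_def]; ring
  | succ m ih =>
    obtain ⟨φ1, φ2, φ3, h1, h2, h3⟩ := ih
    have ha : (ev (cat m) z).a = 0 := by
      apply ev_a
      cases m <;> simp [cat, hang]
    have e : ev (cat (m + 1)) z = ⁅ev (cat m) z, z (0 + (cat m).deg)⁆ := rfl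
    refine ⟨-((z (0 + (cat m).deg)).a • φ1), -((z (0 + (cat m).deg)).a • φ2),
      -((z (0 + (cat m).deg)).a • φ3), ?_, ?_, ?_⟩
    · rw [e, br_f1, ha, h1, zero_smul, zero_sub]; simp only [Algebra.smul_def]; ring
    · rw [e, br_f2, ha, h2, zero_smul, zero_sub]; simp only [Algebra.smul_def]; ring
    · rw [e, br_f3, ha, h3, zero_smul, zero_sub]; simp only [Algebra.smul_def]; ring

lemma cherries_hang (t : Br) (m : ℕ) (ht : m ≤ t.cherries) (hm : 1 ≤ m) (k : ℕ) :
    m ≤ (hang t k).cherries := by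
  induction k with
  | zero => exact ht
  | succ k ih =>
    rw [hang, cherries_node]
    · omega
    · rintro ⟨h, _⟩
      rw [h] at ih
      simp only [cherries] at ih
      omega

lemma hang_u (t : Br) (ht : 2 ≤ t.cherries) (k : ℕ) (z : ℕ → (H q t1 t2 t3 c1 c2 c3)) :
    ∃ c : K, (ev (hang t k) z).u12 = c • ((t1 + t2) ^ k * (ev t z).u12) ∧
      (ev (hang t k) z).u13 = c • ((t1 + t3) ^ k * (ev t z).u13) ∧
      (ev (hang t k) z).u23 = c • ((t2 + t3) ^ k * (ev t z).u23) := by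
  induction k with
  | zero => exact ⟨1, by simp [hang], by simp [hang], by simp [hang]⟩
  | succ k ih =>
    obtain ⟨c, h1, h2, h3⟩ := ih
    have e : ev (hang t (k + 1)) z = ⁅ev (hang t k) z, z (0 + (hang t k).deg)⁆ := rfl
    have hc := cherries_hang t 2 ht (by omega) k
    obtain ⟨e1, e2, e3⟩ := ev_f _ hc z
    refine ⟨-((z (0 + (hang t k).deg)).a * c), ?_, ?_, ?_⟩
    · rw [e, br_u12, h1, ev_a' _ (by omega) z, e1, e2, zero_smul, zero_sub, zero_mul, zero_mul,
        sub_zero, add_zero]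
      simp only [Algebra.smul_def, map_neg, map_mul]; ring
    · rw [e, br_u13, h2, ev_a' _ (by omega) z, e1, e3, zero_smul, zero_sub, zero_mul, zero_mul,
        sub_zero, add_zero]
      simp only [Algebra.smul_def, map_neg, map_mul]; ring
    · rw [e, br_u23, h3, ev_a' _ (by omega) z, e2, e3, zero_smul, zero_sub, zero_mul, zero_mul,
        sub_zero, add_zero]
      simp only [Algebra.smul_def, map_neg, map_mul]; ring

lemma hang_h (t : Br) (ht : 3 ≤ t.cherries) (k : ℕ) (z : ℕ → (H q t1 t2 t3 c1 c2 c3)) :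
    ∃ c : K, (ev (hang t k) z).h = c • (q (t1 + t2 + t3) ^ k * (ev t z).h) := by
  induction k with
  | zero => exact ⟨1, by simp [hang]⟩
  | succ k ih =>
    obtain ⟨c, h1⟩ := ih
    have e : ev (hang t (k + 1)) z = ⁅ev (hang t k) z, z (0 + (hang t k).deg)⁆ := rfl
    have hc := cherries_hang t 3 ht (by omega) k
    obtain ⟨e1, e2, e3⟩ := ev_f (hang t k) (by omega) z
    obtain ⟨e4, e5, e6⟩ := ev_u _ hc z
    refine ⟨-((z (0 + (hang t k).deg)).a * c), ?_⟩
    rw [e, br_h, h1, ev_a' _ (by omega) z, e1, e2, e3, e4, e5, e6]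
    simp only [Algebra.smul_def, map_neg, map_mul, map_zero, zero_mul, mul_zero, sub_zero,
      add_zero, zero_sub]
    ring

/-- the product belonging to one labelling -/
def Wt (ci cj ti tj tl s : R) (k1 k2 k12 k3 k0 : ℕ) : R :=
  (ci - cj) * ((ti + tj) ^ k12 * (ti ^ (k1 + 1) * tj ^ (k2 + 1)) * tl ^ (k3 + 1) * s ^ k0)

lemma cherries_cat (m : ℕ) : 1 ≤ (cat m).cherries := by
  cases m <;> exact cherries_pos _ _

lemma cherries_two_ge (i j k : ℕ) : 2 ≤ (two i j k).cherries := by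
  apply cherries_hang _ _ _ (by omega)
  rw [cherries_node]
  · have := cherries_cat i
    have := cherries_cat j
    omega
  · rintro ⟨h, _⟩
    cases i <;> simp [cat, hang] at h

lemma cherries_node_two_cat (i j k l : ℕ) : 3 ≤ (node (two i j k) (cat l)).cherries := by
  have h1 := cherries_two_ge i j k
  have h2 := cherries_cat l
  rw [cherries_node]
  · omega
  · rintro ⟨h, _⟩
    rw [h] at h1
    simp [cherries] at h1

/-- The identity of a bracket structure with three cherries holds. -/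
lemma holds_three (k1 k2 k12 k3 k0 : ℕ)
    (h12 : q (Wt c1 c2 t1 t2 t3 (t1 + t2 + t3) k1 k2 k12 k3 k0) = 0)
    (h21 : q (Wt c1 c2 t2 t1 t3 (t1 + t2 + t3) k1 k2 k12 k3 k0) = 0)
    (h13 : q (Wt c1 c3 t1 t3 t2 (t1 + t2 + t3) k1 k2 k12 k3 k0) = 0)
    (h31 : q (Wt c1 c3 t3 t1 t2 (t1 + t2 + t3) k1 k2 k12 k3 k0) = 0)
    (h23 : q (Wt c2 c3 t2 t3 t1 (t1 + t2 + t3) k1 k2 k12 k3 k0) = 0)
    (h32 : q (Wt c2 c3 t3 t2 t1 (t1 + t2 + t3) k1 k2 k12 k3 k0) = 0) :
    Holds (H q t1 t2 t3 c1 c2 c3) (three k1 k2 k12 k3 k0) := by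
  intro z
  have hc := cherries_node_two_cat k1 k2 k12 k3
  have hcc := cherries_hang _ _ hc (by omega) k0
  obtain ⟨e1, e2, e3⟩ := ev_f (three k1 k2 k12 k3 k0) (by rw [three]; omega) z
  obtain ⟨e4, e5, e6⟩ := ev_u (three k1 k2 k12 k3 k0) hcc z
  refine H.ext (ev_a' _ (by rw [three]; omega) z) e1 e2 e3 e4 e5 e6 ?_
  obtain ⟨κ, hκ⟩ := hang_h (node (two k1 k2 k12) (cat k3)) hc k0 z
  rw [three, hκ]
  obtain ⟨κ', u1, u2, u3⟩ := hang_u (node (cat k1) (cat k2))
    (by have := cherries_two_ge k1 k2 0; simpa [two, hang] using this) k12 z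
  obtain ⟨φ1, φ2, φ3, p1, p2, p3⟩ := cat_form k1 z
  obtain ⟨ψ1, ψ2, ψ3, r1, r2, r3⟩ := cat_form k2 (fun n => z (n + (cat k1).deg))
  obtain ⟨χ1, χ2, χ3, s1, s2, s3⟩ := cat_form k3 (fun n => z (n + (two k1 k2 k12).deg))
  have b1 : (ev (cat k1) z).a = 0 := ev_a' _ (cherries_cat _) _
  have b2 : (ev (cat k2) (fun n => z (n + (cat k1).deg))).a = 0 := ev_a' _ (cherries_cat _) _
  have b3 : (ev (cat k3) (fun n => z (n + (two k1 k2 k12).deg))).a = 0 :=
    ev_a' _ (cherries_cat _) _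
  have b4 : (ev (two k1 k2 k12) z).a = 0 :=
    ev_a' _ (by have := cherries_two_ge k1 k2 k12; omega) _
  obtain ⟨g1, g2, g3⟩ := ev_f (two k1 k2 k12) (cherries_two_ge _ _ _) z
  have v1 : (ev (two k1 k2 k12) z).u12 = κ' • ((t1 + t2) ^ k12 *
      (t1 ^ (k1 + 1) * φ1 * (t2 ^ (k2 + 1) * ψ2) - t2 ^ (k1 + 1) * φ2 * (t1 ^ (k2 + 1) * ψ1))) := by
    rw [two, u1]
    simp only [ev, br_u12, b1, b2, p1, p2, r1, r2, zero_smul, sub_zero, zero_add]
  have v2 : (ev (two k1 k2 k12) z).u13 = κ' • ((t1 + t3) ^ k12 *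
      (t1 ^ (k1 + 1) * φ1 * (t3 ^ (k2 + 1) * ψ3) - t3 ^ (k1 + 1) * φ3 * (t1 ^ (k2 + 1) * ψ1))) := by
    rw [two, u2]
    simp only [ev, br_u13, b1, b2, p1, p3, r1, r3, zero_smul, sub_zero, zero_add]
  have v3 : (ev (two k1 k2 k12) z).u23 = κ' • ((t2 + t3) ^ k12 *
      (t2 ^ (k1 + 1) * φ2 * (t3 ^ (k2 + 1) * ψ3) - t3 ^ (k1 + 1) * φ3 * (t2 ^ (k2 + 1) * ψ2))) := by
    rw [two, u3]
    simp only [ev, br_u23, b1, b2, p2, p3, r2, r3, zero_smul, sub_zero, zero_add]
  have hh : (ev (node (two k1 k2 k12) (cat k3)) z).h =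
      q ((c1 - c2) * ((ev (two k1 k2 k12) z).u12 * (t3 ^ (k3 + 1) * χ3)) +
        (c1 - c3) * ((ev (two k1 k2 k12) z).u13 * (t2 ^ (k3 + 1) * χ2)) +
        (c2 - c3) * ((ev (two k1 k2 k12) z).u23 * (t1 ^ (k3 + 1) * χ1))) := by
    simp only [ev, br_h, b3, b4, g1, g2, g3, s1, s2, s3, zero_smul, sub_zero, zero_add, mul_zero]
  rw [hh, v1, v2, v3, ← map_pow, ← map_mul]
  have key : (t1 + t2 + t3) ^ k0 * ((c1 - c2) * (κ' • ((t1 + t2) ^ k12 *
      (t1 ^ (k1 + 1) * φ1 * (t2 ^ (k2 + 1) * ψ2) - t2 ^ (k1 + 1) * φ2 * (t1 ^ (k2 + 1) * ψ1))) *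
        (t3 ^ (k3 + 1) * χ3)) +
      (c1 - c3) * (κ' • ((t1 + t3) ^ k12 *
      (t1 ^ (k1 + 1) * φ1 * (t3 ^ (k2 + 1) * ψ3) - t3 ^ (k1 + 1) * φ3 * (t1 ^ (k2 + 1) * ψ1))) *
        (t2 ^ (k3 + 1) * χ2)) +
      (c2 - c3) * (κ' • ((t2 + t3) ^ k12 *
      (t2 ^ (k1 + 1) * φ2 * (t3 ^ (k2 + 1) * ψ3) - t3 ^ (k1 + 1) * φ3 * (t2 ^ (k2 + 1) * ψ2))) *
        (t1 ^ (k3 + 1) * χ1))) =
      Wt c1 c2 t1 t2 t3 (t1 + t2 + t3) k1 k2 k12 k3 k0 *
        (algebraMap K R κ' * (φ1 * ψ2 * χ3)) -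
      Wt c1 c2 t2 t1 t3 (t1 + t2 + t3) k1 k2 k12 k3 k0 *
        (algebraMap K R κ' * (φ2 * ψ1 * χ3)) +
      Wt c1 c3 t1 t3 t2 (t1 + t2 + t3) k1 k2 k12 k3 k0 *
        (algebraMap K R κ' * (φ1 * ψ3 * χ2)) -
      Wt c1 c3 t3 t1 t2 (t1 + t2 + t3) k1 k2 k12 k3 k0 *
        (algebraMap K R κ' * (φ3 * ψ1 * χ2)) +
      Wt c2 c3 t2 t3 t1 (t1 + t2 + t3) k1 k2 k12 k3 k0 *
        (algebraMap K R κ' * (φ2 * ψ3 * χ1)) -
      Wt c2 c3 t3 t2 t1 (t1 + t2 + t3) k1 k2 k12 k3 k0 *
        (algebraMap K R κ' * (φ3 * ψ2 * χ1)) := by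
    simp only [Wt, Algebra.smul_def, add_comm t2 t1, add_comm t3 t1, add_comm t3 t2]
    ring
  rw [key]
  simp only [map_add, map_sub, map_mul, h12, h21, h13, h31, h23, h32, zero_mul, sub_zero,
    add_zero, smul_zero, zero_h]

/-! #### non-vanishing -/

def A1 : (H q t1 t2 t3 c1 c2 c3) := ⟨1, 0, 0, 0, 0, 0, 0, 0⟩
def B1 : (H q t1 t2 t3 c1 c2 c3) := ⟨0, 1, 0, 0, 0, 0, 0, 0⟩
def B2 : (H q t1 t2 t3 c1 c2 c3) := ⟨0, 0, 1, 0, 0, 0, 0, 0⟩
def B3 : (H q t1 t2 t3 c1 c2 c3) := ⟨0, 0, 0, 1, 0, 0, 0, 0⟩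

lemma cat_val1 (m : ℕ) (z : ℕ → (H q t1 t2 t3 c1 c2 c3)) (h0 : z 0 = B1)
    (hz : ∀ n, 1 ≤ n → n < m + 2 → z n = A1) :
    ev (cat m) z = ⟨0, (-t1) ^ (m + 1), 0, 0, 0, 0, 0, 0⟩ := by
  induction m with
  | zero =>
    have e : ev (cat 0) z = ⁅z 0, z (0 + 1)⁆ := rfl
    rw [e, h0, hz (0 + 1) (by omega) (by omega)]
    ext <;> simp [A1, B1]
  | succ m ih =>
    have e : ev (cat (m + 1)) z = ⁅ev (cat m) z, z (0 + (cat m).deg)⁆ := rfl
    rw [e, ih (fun n h1 h2 => hz n h1 (by omega)), deg_cat, hz _ (by omega) (by omega)]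
    ext <;> simp [A1] <;> ring

lemma cat_val2 (m : ℕ) (z : ℕ → (H q t1 t2 t3 c1 c2 c3)) (h0 : z 0 = B2)
    (hz : ∀ n, 1 ≤ n → n < m + 2 → z n = A1) :
    ev (cat m) z = ⟨0, 0, (-t2) ^ (m + 1), 0, 0, 0, 0, 0⟩ := by
  induction m with
  | zero =>
    have e : ev (cat 0) z = ⁅z 0, z (0 + 1)⁆ := rfl
    rw [e, h0, hz (0 + 1) (by omega) (by omega)]
    ext <;> simp [A1, B2]
  | succ m ih =>
    have e : ev (cat (m + 1)) z = ⁅ev (cat m) z, z (0 + (cat m).deg)⁆ := rfl
    rw [e, ih (fun n h1 h2 => hz n h1 (by omega)), deg_cat, hz _ (by omega) (by omega)]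
    ext <;> simp [A1] <;> ring

lemma cat_val3 (m : ℕ) (z : ℕ → (H q t1 t2 t3 c1 c2 c3)) (h0 : z 0 = B3)
    (hz : ∀ n, 1 ≤ n → n < m + 2 → z n = A1) :
    ev (cat m) z = ⟨0, 0, 0, (-t3) ^ (m + 1), 0, 0, 0, 0⟩ := by
  induction m with
  | zero =>
    have e : ev (cat 0) z = ⁅z 0, z (0 + 1)⁆ := rfl
    rw [e, h0, hz (0 + 1) (by omega) (by omega)]
    ext <;> simp [A1, B3]
  | succ m ih =>
    have e : ev (cat (m + 1)) z = ⁅ev (cat m) z, z (0 + (cat m).deg)⁆ := rfl
    rw [e, ih (fun n h1 h2 => hz n h1 (by omega)), deg_cat, hz _ (by omega) (by omega)]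
    ext <;> simp [A1] <;> ring

/-- The substitution. -/
def sub (i j : ℕ) : ℕ → (H q t1 t2 t3 c1 c2 c3) := fun n =>
  if n = 0 then B1 else if n = i + 2 then B2 else if n = j then B3 else A1

lemma two_val (i j k : ℕ) (J : ℕ) (hJ : i + j + k + 4 ≤ J) : ev (two i j k) (sub i J : ℕ → (H q t1 t2 t3 c1 c2 c3)) =
    ⟨0, 0, 0, 0, (-(t1 + t2)) ^ k * ((-t1) ^ (i + 1) * (-t2) ^ (j + 1)), 0, 0, 0⟩ := by
  induction k with
  | zero =>
    have e : ev (two i j 0) (sub i J : ℕ → (H q t1 t2 t3 c1 c2 c3)) =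
      ⁅ev (cat i) (sub i J), ev (cat j) (fun n => sub i J (n + (cat i).deg))⁆ := rfl
    rw [e, cat_val1 i _ (by simp [sub]) (fun n h1 h2 => by
        simp only [sub]; rw [if_neg (by omega), if_neg (by omega), if_neg (by omega)]),
      cat_val2 j _ (by simp [sub, deg_cat]) (fun n h1 h2 => by
        simp only [sub, deg_cat]; rw [if_neg (by omega), if_neg (by omega), if_neg (by omega)])]
    ext <;> simp
  | succ k ih =>
    have e : ev (two i j (k + 1)) (sub i J : ℕ → (H q t1 t2 t3 c1 c2 c3)) =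
      ⁅ev (two i j k) (sub i J), sub i J (0 + (two i j k).deg)⁆ := rfl
    rw [e, ih (by omega)]
    have : (sub i J (0 + (two i j k).deg) : (H q t1 t2 t3 c1 c2 c3)) = A1 := by
      simp only [sub, deg_two]; rw [if_neg (by omega), if_neg (by omega), if_neg (by omega)]
    rw [this]
    ext <;> simp [A1] <;> ring

lemma three_val (k1 k2 k12 k3 k0 : ℕ) :
    ev (three k1 k2 k12 k3 k0) (sub k1 (k1 + k2 + k12 + 4) : ℕ → (H q t1 t2 t3 c1 c2 c3)) =
    ⟨0, 0, 0, 0, 0, 0, 0, (-q (t1 + t2 + t3)) ^ k0 *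
      q ((c1 - c2) * ((-(t1 + t2)) ^ k12 * ((-t1) ^ (k1 + 1) * (-t2) ^ (k2 + 1)) *
        (-t3) ^ (k3 + 1)))⟩ := by
  induction k0 with
  | zero =>
    have e : ev (three k1 k2 k12 k3 0) (sub k1 (k1 + k2 + k12 + 4) : ℕ → (H q t1 t2 t3 c1 c2 c3)) =
      ⁅ev (two k1 k2 k12) (sub k1 (k1 + k2 + k12 + 4)),
        ev (cat k3) (fun n => sub k1 (k1 + k2 + k12 + 4) (n + (two k1 k2 k12).deg))⁆ := rfl
    rw [e, two_val k1 k2 k12 _ le_rfl,
      cat_val3 k3 _ (by simp only [sub, deg_two]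
                        rw [if_neg (by omega), if_neg (by omega), if_pos (by omega)])
        (fun n h1 h2 => by
        simp only [sub, deg_two]; rw [if_neg (by omega), if_neg (by omega), if_neg (by omega)])]
    ext <;> simp
  | succ k ih =>
    have e : ev (three k1 k2 k12 k3 (k + 1)) (sub k1 (k1 + k2 + k12 + 4) : ℕ → (H q t1 t2 t3 c1 c2 c3)) =
      ⁅ev (three k1 k2 k12 k3 k) (sub k1 (k1 + k2 + k12 + 4)),
        sub k1 (k1 + k2 + k12 + 4) (0 + (three k1 k2 k12 k3 k).deg)⁆ := rfl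
    rw [e, ih]
    have : (sub k1 (k1 + k2 + k12 + 4) (0 + (three k1 k2 k12 k3 k).deg) : (H q t1 t2 t3 c1 c2 c3)) = A1 := by
      simp only [sub, deg_three]; rw [if_neg (by omega), if_neg (by omega), if_neg (by omega)]
    rw [this]
    refine H.ext rfl (by simp [A1]) (by simp [A1]) (by simp [A1]) (by simp [A1]) (by simp [A1])
      (by simp [A1]) ?_
    simp only [br_h, A1, zero_smul, zero_sub, one_smul, mul_zero, sub_zero, zero_mul, map_zero,
        add_zero]
    ring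

end H

end alg3

/-! ### the theorem -/

open Polynomial

section final

variable (K : Type u) [Field K]

/-- truncation -/
noncomputable abbrev qm (m : ℕ) : K[X] →ₐ[K] (K[X] ⧸ Ideal.span {(X : K[X]) ^ m}) :=
  Ideal.Quotient.mkₐ K _

lemma qm_eq_zero (m : ℕ) (p : K[X]) : qm K m p = 0 ↔ X ^ m ∣ p := by
  rw [Ideal.Quotient.mkₐ_eq_mk, Ideal.Quotient.eq_zero_iff_mem, Ideal.mem_span_singleton]

/-- from the identities of `two i j k` to those of `two i' j' k'`, exponent of `y` -/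
lemma step_j (i j k i' j' k' : ℕ) (hij : j ≤ i)
    (h : ∀ (A : Type u) [LieRing A] [LieAlgebra K A], Holds A (two i j k) →
      Holds A (two i' j' k')) : j ≤ j' := by
  by_contra hlt
  push Not at hlt
  have h1 : Holds (G (qm K (j + 1)) (1 : K[X]) X) (two i j k) := by
    apply G.holds_two
    · rw [qm_eq_zero]
      exact Dvd.dvd.mul_left (Dvd.dvd.mul_left (pow_dvd_pow _ (by omega)) _) _
    · rw [qm_eq_zero]
      exact Dvd.dvd.mul_left (Dvd.dvd.mul_left (pow_dvd_pow _ (by omega)) _) _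
  have h2 := h _ h1 (G.sub i')
  rw [G.two_val] at h2
  have h3 := congrArg G.h h2
  simp only [G.zero_h] at h3
  rw [← map_neg, ← map_pow, ← map_mul, qm_eq_zero, X_pow_dvd_iff] at h3
  have h4 := h3 (j' + 1) (by omega)
  have e : (-(1 + X : K[X])) ^ k' * ((-1) ^ (i' + 1) * (-X) ^ (j' + 1)) =
      ((-(1 + X : K[X])) ^ k' * ((-1) ^ (i' + 1) * (-1) ^ (j' + 1))) * X ^ (j' + 1) := by
    rw [neg_pow (X : K[X]) (j' + 1)]; ring
  rw [e] at h4
  have h5 := coeff_mul_X_pow ((-(1 + X : K[X])) ^ k' * ((-1) ^ (i' + 1) * (-1) ^ (j' + 1)))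
    (j' + 1) 0
  rw [zero_add, h4, coeff_zero_eq_eval_zero] at h5
  simp at h5

lemma step_k (i j k i' j' k' : ℕ)
    (h : ∀ (A : Type u) [LieRing A] [LieAlgebra K A], Holds A (two i j k) →
      Holds A (two i' j' k')) : k ≤ k' := by
  by_contra hlt
  push Not at hlt
  have h1 : Holds (G (qm K k) (1 : K[X]) (X - 1)) (two i j k) := by
    apply G.holds_two
    · rw [qm_eq_zero]
      exact Dvd.dvd.mul_right (by simp) _
    · rw [qm_eq_zero]
      exact Dvd.dvd.mul_right (by simp) _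
  have h2 := h _ h1 (G.sub i')
  rw [G.two_val] at h2
  have h3 := congrArg G.h h2
  simp only [G.zero_h] at h3
  rw [← map_neg, ← map_pow, ← map_mul, qm_eq_zero, X_pow_dvd_iff] at h3
  have h4 := h3 k' hlt
  have e : (-(1 + (X - 1) : K[X])) ^ k' * ((-1) ^ (i' + 1) * (-(X - 1)) ^ (j' + 1)) =
      ((-1) ^ k' * ((-1) ^ (i' + 1) * (-(X - 1)) ^ (j' + 1))) * X ^ k' := by
    rw [add_sub_cancel, neg_pow (X : K[X]) k']; ring
  rw [e] at h4
  have h5 := coeff_mul_X_pow ((-1 : K[X]) ^ k' * ((-1) ^ (i' + 1) * (-(X - 1)) ^ (j' + 1)))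
    k' 0
  rw [zero_add, h4, coeff_zero_eq_eval_zero] at h5
  simp at h5

/-- no identity of a structure with at least three cherries implies one with two cherries -/
lemma three_two (s : Br) (hs : 3 ≤ s.cherries) (i j k : ℕ) :
    ¬ ∀ (A : Type u) [LieRing A] [LieAlgebra K A], Holds A s → Holds A (two i j k) := by
  intro h
  have h2 := h (G (AlgHom.id K K[X]) (1 : K[X]) X) (fun z => G.ev_zero s hs z) (G.sub i)
  rw [G.two_val] at h2
  have h3 := congrArg G.h h2
  simp only [G.zero_h, AlgHom.coe_id, id_eq] at h3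
  have hX : (X : K[X]) ≠ 0 := X_ne_zero
  have h1X : (1 + X : K[X]) ≠ 0 := by
    intro h0
    have := congrArg (fun p => coeff p 1) h0
    simp [coeff_one] at this
  have h4 : (-(1 + X : K[X])) ^ k * ((-1) ^ (i + 1) * (-X) ^ (j + 1)) ≠ 0 :=
    mul_ne_zero (pow_ne_zero _ (neg_ne_zero.mpr h1X))
      (mul_ne_zero (pow_ne_zero _ (neg_ne_zero.mpr one_ne_zero))
        (pow_ne_zero _ (neg_ne_zero.mpr hX)))
  exact h4 h3

/-- no identity of a structure with at least two cherries implies one with one cherry -/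
lemma two_one (s : Br) (hs : 2 ≤ s.cherries) (m : ℕ) :
    ¬ ∀ (A : Type u) [LieRing A] [LieAlgebra K A], Holds A s → Holds A (cat m) := by
  intro h
  have hsub : Subsingleton (K[X] ⧸ (⊤ : Ideal K[X])) := Ideal.Quotient.subsingleton_iff.mpr rfl
  have h2 := h (G (Ideal.Quotient.mkₐ K (⊤ : Ideal K[X])) (1 : K[X]) 1) (fun z => G.ext
      (G.ev_a' s (by omega) z) (G.ev_fg s hs z).1 (G.ev_fg s hs z).2
      (Subsingleton.elim _ _)) (G.sub m)
  rw [G.cat_val1 m _ (by simp [G.sub]) (fun n h1 h2 => by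
        simp only [G.sub]; rw [if_neg (by omega), if_neg (by omega)])] at h2
  have h3 := congrArg G.f h2
  simp at h3


/-! #### three cherries -/

lemma not_dvd (m m' : ℕ) (P : K[X][X]) (hP : eval 0 P ≠ 0) (h : X ^ m ∣ P * X ^ m') :
    m ≤ m' := by
  by_contra hlt
  push Not at hlt
  rw [X_pow_dvd_iff] at h
  have h4 := h m' hlt
  have h5 := coeff_mul_X_pow P m' 0
  rw [zero_add, h4, coeff_zero_eq_eval_zero] at h5
  exact hP h5.symm

/-- if the six products of `σ` lie in the ideal `I` then so does the value of `w_τ` -/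
lemma step_gen {R : Type u} [CommRing R] [Algebra K R] (I : Ideal R) (t1 t2 t3 c1 c2 c3 : R)
    (k1 k2 k12 k3 k0 l1 l2 l12 l3 l0 : ℕ)
    (h12 : H.Wt c1 c2 t1 t2 t3 (t1 + t2 + t3) k1 k2 k12 k3 k0 ∈ I)
    (h21 : H.Wt c1 c2 t2 t1 t3 (t1 + t2 + t3) k1 k2 k12 k3 k0 ∈ I)
    (h13 : H.Wt c1 c3 t1 t3 t2 (t1 + t2 + t3) k1 k2 k12 k3 k0 ∈ I)
    (h31 : H.Wt c1 c3 t3 t1 t2 (t1 + t2 + t3) k1 k2 k12 k3 k0 ∈ I)
    (h23 : H.Wt c2 c3 t2 t3 t1 (t1 + t2 + t3) k1 k2 k12 k3 k0 ∈ I)
    (h32 : H.Wt c2 c3 t3 t2 t1 (t1 + t2 + t3) k1 k2 k12 k3 k0 ∈ I)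
    (h : ∀ (A : Type u) [LieRing A] [LieAlgebra K A], Holds A (three k1 k2 k12 k3 k0) →
      Holds A (three l1 l2 l12 l3 l0)) :
    (-(t1 + t2 + t3)) ^ l0 *
      ((c1 - c2) * ((-(t1 + t2)) ^ l12 * ((-t1) ^ (l1 + 1) * (-t2) ^ (l2 + 1)) *
        (-t3) ^ (l3 + 1))) ∈ I := by
  have h1 : Holds (H (Ideal.Quotient.mkₐ K I) t1 t2 t3 c1 c2 c3) (three k1 k2 k12 k3 k0) := by
    apply H.holds_three <;>
      rw [Ideal.Quotient.mkₐ_eq_mk, Ideal.Quotient.eq_zero_iff_mem] <;> assumption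
  have h2 := h _ h1 (H.sub l1 (l1 + l2 + l12 + 4))
  rw [H.three_val] at h2
  have h3 := congrArg H.h h2
  simp only [H.zero_h] at h3
  rw [← map_neg, ← map_pow, ← map_mul, Ideal.Quotient.mkₐ_eq_mk,
    Ideal.Quotient.eq_zero_iff_mem] at h3
  exact h3

/-- the value of `w_τ` is divisible by `X ^ m` if the six products of `σ` are -/
lemma step3 (m : ℕ) (t1 t2 t3 c1 c2 c3 : K[X][X]) (k1 k2 k12 k3 k0 l1 l2 l12 l3 l0 : ℕ)
    (h12 : X ^ m ∣ H.Wt c1 c2 t1 t2 t3 (t1 + t2 + t3) k1 k2 k12 k3 k0)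
    (h21 : X ^ m ∣ H.Wt c1 c2 t2 t1 t3 (t1 + t2 + t3) k1 k2 k12 k3 k0)
    (h13 : X ^ m ∣ H.Wt c1 c3 t1 t3 t2 (t1 + t2 + t3) k1 k2 k12 k3 k0)
    (h31 : X ^ m ∣ H.Wt c1 c3 t3 t1 t2 (t1 + t2 + t3) k1 k2 k12 k3 k0)
    (h23 : X ^ m ∣ H.Wt c2 c3 t2 t3 t1 (t1 + t2 + t3) k1 k2 k12 k3 k0)
    (h32 : X ^ m ∣ H.Wt c2 c3 t3 t2 t1 (t1 + t2 + t3) k1 k2 k12 k3 k0)
    (h : ∀ (A : Type u) [LieRing A] [LieAlgebra K A], Holds A (three k1 k2 k12 k3 k0) →
      Holds A (three l1 l2 l12 l3 l0)) :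
    X ^ m ∣ (-(t1 + t2 + t3)) ^ l0 *
      ((c1 - c2) * ((-(t1 + t2)) ^ l12 * ((-t1) ^ (l1 + 1) * (-t2) ^ (l2 + 1)) *
        (-t3) ^ (l3 + 1))) := by
  rw [← Ideal.mem_span_singleton] at h12 h21 h13 h31 h23 h32 ⊢
  exact step_gen K _ t1 t2 t3 c1 c2 c3 _ _ _ _ _ _ _ _ _ _ h12 h21 h13 h31 h23 h32 h

lemma X_ne : (X : K[X]) ≠ 0 := X_ne_zero

lemma one_add_X_ne : (1 + X : K[X]) ≠ 0 := by
  intro h0
  have := congrArg (fun p => coeff p 1) h0
  simp [coeff_one] at this

lemma neg_X_ne : (-X + -1 : K[X]) ≠ 0 := by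
  intro h0
  apply one_add_X_ne K
  linear_combination (-1 : K[X]) * h0

lemma X_add_ne : (X + 1 : K[X]) ≠ 0 := by
  intro h0
  apply one_add_X_ne K
  linear_combination h0

lemma T1 (k1 k2 k12 k3 k0 l1 l2 l12 l3 l0 : ℕ) (hk : k2 ≤ k1)
    (h : ∀ (A : Type u) [LieRing A] [LieAlgebra K A], Holds A (three k1 k2 k12 k3 k0) →
      Holds A (three l1 l2 l12 l3 l0)) : k2 ≤ l2 := by
  have d : (X : K[X][X]) ^ (k2 + 1) ∣ X ^ (k1 + 1) := pow_dvd_pow _ (by omega)
  have h3 := step3 K (k2 + 1) 1 X (C (X : K[X]) : K[X][X]) 0 1 0 k1 k2 k12 k3 k0 l1 l2 l12 l3 l0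
    (by
      unfold H.Wt
      exact Dvd.dvd.mul_left (Dvd.dvd.mul_right (Dvd.dvd.mul_right
        (Dvd.dvd.mul_left (Dvd.dvd.mul_left dvd_rfl _) _) _) _) _)
    (by
      unfold H.Wt
      exact Dvd.dvd.mul_left (Dvd.dvd.mul_right (Dvd.dvd.mul_right
        (Dvd.dvd.mul_left (Dvd.dvd.mul_right d _) _) _) _) _)
    (by unfold H.Wt; simp) (by unfold H.Wt; simp)
    (by
      unfold H.Wt
      exact Dvd.dvd.mul_left (Dvd.dvd.mul_right (Dvd.dvd.mul_right
        (Dvd.dvd.mul_left (Dvd.dvd.mul_right d _) _) _) _) _)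
    (by
      unfold H.Wt
      exact Dvd.dvd.mul_left (Dvd.dvd.mul_right (Dvd.dvd.mul_right
        (Dvd.dvd.mul_left (Dvd.dvd.mul_left dvd_rfl _) _) _) _) _) h
  have e : (-(1 + X + C X : K[X][X])) ^ l0 *
      ((0 - 1) * ((-(1 + X : K[X][X])) ^ l12 * ((-1) ^ (l1 + 1) * (-X) ^ (l2 + 1)) *
        (-(C (X : K[X]) : K[X][X])) ^ (l3 + 1))) = ((-(1 + X + C X : K[X][X])) ^ l0 *
      ((0 - 1) * ((-(1 + X : K[X][X])) ^ l12 * ((-1) ^ (l1 + 1) * (-1) ^ (l2 + 1)) *
        (-(C (X : K[X]) : K[X][X])) ^ (l3 + 1)))) * X ^ (l2 + 1) := by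
    rw [neg_pow (X : K[X][X]) (l2 + 1)]; ring
  rw [e] at h3
  have := not_dvd K _ _ _ (by
    simp only [eval_mul, eval_pow, eval_neg, eval_add, eval_sub, eval_one, eval_X, eval_C,
      eval_zero, add_zero, zero_sub]
    have a1 := X_ne K
    have a2 := one_add_X_ne K
    have a4 := neg_X_ne K
    simp [a1, a2, a4]) h3
  omega

lemma T2 (k1 k2 k12 k3 k0 l1 l2 l12 l3 l0 : ℕ) (hk : k2 ≤ k1)
    (h : ∀ (A : Type u) [LieRing A] [LieAlgebra K A], Holds A (three k1 k2 k12 k3 k0) →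
      Holds A (three l1 l2 l12 l3 l0)) : k2 + k3 ≤ l2 + l3 := by
  have d : (X : K[X][X]) ^ (k2 + 1) ∣ X ^ (k1 + 1) := pow_dvd_pow _ (by omega)
  have h3 := step3 K ((k2 + 1) + (k3 + 1)) 1 X X 1 0 0 k1 k2 k12 k3 k0 l1 l2 l12 l3 l0
    (by
      unfold H.Wt
      rw [pow_add]
      exact Dvd.dvd.mul_left (Dvd.dvd.mul_right (mul_dvd_mul
        (Dvd.dvd.mul_left (Dvd.dvd.mul_left dvd_rfl _) _) dvd_rfl) _) _)
    (by
      unfold H.Wt
      rw [pow_add]
      exact Dvd.dvd.mul_left (Dvd.dvd.mul_right (mul_dvd_mul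
        (Dvd.dvd.mul_left (Dvd.dvd.mul_right d _) _) dvd_rfl) _) _)
    (by
      unfold H.Wt
      rw [pow_add]
      exact Dvd.dvd.mul_left (Dvd.dvd.mul_right (mul_dvd_mul
        (Dvd.dvd.mul_left (Dvd.dvd.mul_left dvd_rfl _) _) dvd_rfl) _) _)
    (by
      unfold H.Wt
      rw [pow_add]
      exact Dvd.dvd.mul_left (Dvd.dvd.mul_right (mul_dvd_mul
        (Dvd.dvd.mul_left (Dvd.dvd.mul_right d _) _) dvd_rfl) _) _)
    (by unfold H.Wt; simp) (by unfold H.Wt; simp) h
  have e : (-(1 + X + X : K[X][X])) ^ l0 *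
      ((1 - 0) * ((-(1 + X : K[X][X])) ^ l12 * ((-1) ^ (l1 + 1) * (-X) ^ (l2 + 1)) *
        (-X) ^ (l3 + 1))) = ((-(1 + X + X : K[X][X])) ^ l0 *
      ((1 - 0) * ((-(1 + X : K[X][X])) ^ l12 * ((-1) ^ (l1 + 1) * (-1) ^ (l2 + 1)) *
        (-1) ^ (l3 + 1)))) * X ^ ((l2 + 1) + (l3 + 1)) := by
    rw [neg_pow (X : K[X][X]) (l2 + 1), neg_pow (X : K[X][X]) (l3 + 1)]; ring
  rw [e] at h3
  have := not_dvd K _ _ _ (by
    simp only [eval_mul, eval_pow, eval_neg, eval_add, eval_sub, eval_one, eval_X, eval_C,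
      eval_zero, add_zero, zero_sub]
    simp) h3
  omega

lemma T3 (k1 k2 k12 k3 k0 l1 l2 l12 l3 l0 : ℕ)
    (h : ∀ (A : Type u) [LieRing A] [LieAlgebra K A], Holds A (three k1 k2 k12 k3 k0) →
      Holds A (three l1 l2 l12 l3 l0)) : k12 ≤ l12 := by
  have d : (X : K[X][X]) ^ k12 ∣ (1 + (X - 1)) ^ k12 := by rw [add_sub_cancel]
  have d' : (X : K[X][X]) ^ k12 ∣ ((X - 1) + 1) ^ k12 := by rw [sub_add_cancel]
  have h3 := step3 K k12 1 (X - 1) (X - 1) 1 0 0 k1 k2 k12 k3 k0 l1 l2 l12 l3 l0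
    (by
      unfold H.Wt
      exact Dvd.dvd.mul_left (Dvd.dvd.mul_right (Dvd.dvd.mul_right
        (Dvd.dvd.mul_right d _) _) _) _)
    (by
      unfold H.Wt
      exact Dvd.dvd.mul_left (Dvd.dvd.mul_right (Dvd.dvd.mul_right
        (Dvd.dvd.mul_right d' _) _) _) _)
    (by
      unfold H.Wt
      exact Dvd.dvd.mul_left (Dvd.dvd.mul_right (Dvd.dvd.mul_right
        (Dvd.dvd.mul_right d _) _) _) _)
    (by
      unfold H.Wt
      exact Dvd.dvd.mul_left (Dvd.dvd.mul_right (Dvd.dvd.mul_right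
        (Dvd.dvd.mul_right d' _) _) _) _)
    (by unfold H.Wt; simp) (by unfold H.Wt; simp) h
  have e : (-(1 + (X - 1) + (X - 1) : K[X][X])) ^ l0 *
      ((1 - 0) * ((-(1 + (X - 1))) ^ l12 * ((-1) ^ (l1 + 1) * (-(X - 1)) ^ (l2 + 1)) *
        (-(X - 1)) ^ (l3 + 1))) = ((-(1 + (X - 1) + (X - 1) : K[X][X])) ^ l0 *
      ((1 - 0) * ((-1) ^ l12 * ((-1) ^ (l1 + 1) * (-(X - 1)) ^ (l2 + 1)) *
        (-(X - 1)) ^ (l3 + 1)))) * X ^ l12 := by
    have : (-(1 + (X - 1)) : K[X][X]) ^ l12 = (-1) ^ l12 * X ^ l12 := by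
      rw [add_sub_cancel, neg_pow (X : K[X][X]) l12]
    rw [this]; ring
  rw [e] at h3
  exact not_dvd K _ _ _ (by
    simp only [eval_mul, eval_pow, eval_neg, eval_add, eval_sub, eval_one, eval_X, eval_C,
      eval_zero, add_zero, zero_sub]
    simp) h3

lemma T0 (k1 k2 k12 k3 k0 l1 l2 l12 l3 l0 : ℕ)
    (h : ∀ (A : Type u) [LieRing A] [LieAlgebra K A], Holds A (three k1 k2 k12 k3 k0) →
      Holds A (three l1 l2 l12 l3 l0)) : k0 ≤ l0 := by
  have es : (1 + (C (X : K[X]) : K[X][X]) + (X - 1 - (C (X : K[X]) : K[X][X])) : K[X][X]) = X := by ring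
  have h3 := step3 K k0 1 (C (X : K[X]) : K[X][X]) (X - 1 - (C (X : K[X]) : K[X][X])) 1 0 0 k1 k2 k12 k3 k0 l1 l2 l12 l3 l0
    (by unfold H.Wt; rw [es]; exact Dvd.dvd.mul_left (Dvd.dvd.mul_left dvd_rfl _) _)
    (by unfold H.Wt; rw [es]; exact Dvd.dvd.mul_left (Dvd.dvd.mul_left dvd_rfl _) _)
    (by unfold H.Wt; rw [es]; exact Dvd.dvd.mul_left (Dvd.dvd.mul_left dvd_rfl _) _)
    (by unfold H.Wt; rw [es]; exact Dvd.dvd.mul_left (Dvd.dvd.mul_left dvd_rfl _) _)
    (by unfold H.Wt; rw [es]; exact Dvd.dvd.mul_left (Dvd.dvd.mul_left dvd_rfl _) _)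
    (by unfold H.Wt; rw [es]; exact Dvd.dvd.mul_left (Dvd.dvd.mul_left dvd_rfl _) _) h
  have e : (-(1 + (C (X : K[X]) : K[X][X]) + (X - 1 - (C (X : K[X]) : K[X][X])) : K[X][X])) ^ l0 *
      ((1 - 0) * ((-(1 + (C (X : K[X]) : K[X][X]))) ^ l12 * ((-1) ^ (l1 + 1) * (-(C (X : K[X]) : K[X][X])) ^ (l2 + 1)) *
        (-(X - 1 - (C (X : K[X]) : K[X][X]))) ^ (l3 + 1))) = ((-1) ^ l0 *
      ((1 - 0) * ((-(1 + (C (X : K[X]) : K[X][X]))) ^ l12 * ((-1) ^ (l1 + 1) * (-(C (X : K[X]) : K[X][X])) ^ (l2 + 1)) *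
        (-(X - 1 - (C (X : K[X]) : K[X][X]))) ^ (l3 + 1)))) * X ^ l0 := by
    rw [es, neg_pow (X : K[X][X]) l0]; ring
  rw [e] at h3
  exact not_dvd K _ _ _ (by
    simp only [eval_mul, eval_pow, eval_neg, eval_add, eval_sub, eval_one, eval_X, eval_C,
      eval_zero, add_zero, zero_sub]
    have a1 := X_ne K
    have a2 := one_add_X_ne K
    have a3 : (-1 - X : K[X]) ≠ 0 := by
      intro h0
      apply a2
      linear_combination (-1 : K[X]) * h0
    have a4 := neg_X_ne K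
    have a5 := X_add_ne K
    simp [a1, a2, a3, a4, a5]) h3

/-- no identity of a structure with at least four cherries implies one with three cherries -/
lemma four_three (s : Br) (hs : 4 ≤ s.cherries) (l1 l2 l12 l3 l0 : ℕ) :
    ¬ ∀ (A : Type u) [LieRing A] [LieAlgebra K A], Holds A s → Holds A (three l1 l2 l12 l3 l0) := by
  intro h
  have h2 := h (H (AlgHom.id K K[X][X]) (1 : K[X][X]) X (C (X : K[X]) : K[X][X]) 0 1 0)
    (fun z => H.ev_zero s hs z) (H.sub l1 (l1 + l2 + l12 + 4))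
  rw [H.three_val] at h2
  have h3 := congrArg H.h h2
  simp only [H.zero_h, AlgHom.coe_id, id_eq] at h3
  have e : (-(1 + X + C X : K[X][X])) ^ l0 *
      ((0 - 1) * ((-(1 + X : K[X][X])) ^ l12 * ((-1) ^ (l1 + 1) * (-X) ^ (l2 + 1)) *
        (-(C (X : K[X]) : K[X][X])) ^ (l3 + 1))) = ((-(1 + X + C X : K[X][X])) ^ l0 *
      ((0 - 1) * ((-(1 + X : K[X][X])) ^ l12 * ((-1) ^ (l1 + 1) * (-1) ^ (l2 + 1)) *
        (-(C (X : K[X]) : K[X][X])) ^ (l3 + 1)))) * X ^ (l2 + 1) := by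
    rw [neg_pow (X : K[X][X]) (l2 + 1)]; ring
  rw [e] at h3
  have h5 : (X : K[X][X]) ^ (l2 + 2) ∣ 0 := dvd_zero _
  rw [← h3] at h5
  have := not_dvd K (l2 + 2) (l2 + 1) _ (by
    simp only [eval_mul, eval_pow, eval_neg, eval_add, eval_sub, eval_one, eval_X, eval_C,
      eval_zero, add_zero, zero_sub]
    have a1 := X_ne K
    have a2 := one_add_X_ne K
    have a4 := neg_X_ne K
    simp [a1, a2, a4]) h5
  omega

end final

/-- **Theorem.** Let `K` be any field, let `σ` and `τ` be bracket structures of the same degree and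
let `σ` have at most three cherries (`τ` is arbitrary).  Then the identities `w_σ = 0` and
`w_τ = 0` hold in exactly the same Lie algebras over `K` if and only if `σ` and `τ` coincide in the
free commutative groupoid on one letter. -/
theorem result (K : Type u) [Field K] (s t : Br) (hd : s.deg = t.deg) (hc : s.cherries ≤ 3) :
    EquivId K s t ↔ CEq s t := by
  constructor
  · intro h
    have leaf_case : ∀ {t : Br}, t.cherries = 0 → t.deg = 1 := by
      intro t ht
      rw [cherries_zero ht]; rfl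
    have hcases : s.cherries = 0 ∨ s.cherries = 1 ∨ s.cherries = 2 ∨ s.cherries = 3 := by omega
    rcases hcases with h0 | h1 | h2 | h3
    · -- degree one
      have hs := cherries_zero h0
      subst hs
      cases t with
      | leaf => exact CEq.refl _
      | node l r =>
        have := deg_pos l
        have := deg_pos r
        simp only [deg] at hd
        omega
    · obtain ⟨m, hm⟩ := cherries_one h1
      have e1 := hm.deg_eq
      rw [deg_cat] at e1
      rcases Nat.lt_or_ge t.cherries 2 with ht | ht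
      · have ht' : t.cherries = 0 ∨ t.cherries = 1 := by omega
        rcases ht' with ht0 | ht1
        · have := leaf_case ht0
          omega
        · obtain ⟨m', hm'⟩ := cherries_one ht1
          have e2 := hm'.deg_eq
          rw [deg_cat] at e2
          have : m = m' := by omega
          subst this
          exact hm.trans hm'.symm
      · exact (two_one K t ht m (fun A _ _ hA => hm.holds.1 ((h A).2 hA))).elim
    · obtain ⟨i, j, k, hij, hs⟩ := cherries_two h2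
      have e1 := hs.deg_eq
      rw [deg_two] at e1
      rcases Nat.lt_or_ge t.cherries 3 with ht | ht
      · have ht' : t.cherries = 0 ∨ t.cherries = 1 ∨ t.cherries = 2 := by omega
        rcases ht' with ht0 | ht1 | ht2
        · have := leaf_case ht0
          omega
        · obtain ⟨m', hm'⟩ := cherries_one ht1
          exact (two_one K s (by omega) m' (fun A _ _ hA => hm'.holds.1 ((h A).1 hA))).elim
        · obtain ⟨i', j', k', hij', hs'⟩ := cherries_two ht2
          have f1 : ∀ (A : Type u) [LieRing A] [LieAlgebra K A], Holds A (two i j k) →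
              Holds A (two i' j' k') := fun A _ _ hA => hs'.holds.1 ((h A).1 (hs.holds.2 hA))
          have f2 : ∀ (A : Type u) [LieRing A] [LieAlgebra K A], Holds A (two i' j' k') →
              Holds A (two i j k) := fun A _ _ hA => hs.holds.1 ((h A).2 (hs'.holds.2 hA))
          have g1 := step_j K i j k i' j' k' hij f1
          have g2 := step_j K i' j' k' i j k hij' f2
          have g3 := step_k K i j k i' j' k' f1
          have g4 := step_k K i' j' k' i j k f2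
          have e2 := hs'.deg_eq
          rw [deg_two] at e2
          have ej : j = j' := by omega
          have ek : k = k' := by omega
          have ei : i = i' := by omega
          subst ej ek ei
          exact hs.trans hs'.symm
      · exact (three_two K t ht i j k (fun A _ _ hA => hs.holds.1 ((h A).2 hA))).elim
    · obtain ⟨k1, k2, k12, k3, k0, hk, hs⟩ := cherries_three h3
      have e1 := hs.deg_eq
      rw [deg_three] at e1
      rcases Nat.lt_or_ge t.cherries 4 with ht | ht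
      · have ht' : t.cherries = 0 ∨ t.cherries = 1 ∨ t.cherries = 2 ∨ t.cherries = 3 := by omega
        rcases ht' with ht0 | ht1 | ht2 | ht3
        · have := leaf_case ht0
          omega
        · obtain ⟨m', hm'⟩ := cherries_one ht1
          exact (two_one K s (by omega) m' (fun A _ _ hA => hm'.holds.1 ((h A).1 hA))).elim
        · obtain ⟨i', j', k', hij', hs'⟩ := cherries_two ht2
          exact (three_two K s (by omega) i' j' k'
            (fun A _ _ hA => hs'.holds.1 ((h A).1 hA))).elim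
        · obtain ⟨l1, l2, l12, l3, l0, hl, hs'⟩ := cherries_three ht3
          have f1 : ∀ (A : Type u) [LieRing A] [LieAlgebra K A], Holds A (three k1 k2 k12 k3 k0) →
              Holds A (three l1 l2 l12 l3 l0) :=
            fun A _ _ hA => hs'.holds.1 ((h A).1 (hs.holds.2 hA))
          have f2 : ∀ (A : Type u) [LieRing A] [LieAlgebra K A], Holds A (three l1 l2 l12 l3 l0) →
              Holds A (three k1 k2 k12 k3 k0) :=
            fun A _ _ hA => hs.holds.1 ((h A).2 (hs'.holds.2 hA))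
          have g1 := T1 K _ _ _ _ _ _ _ _ _ _ hk f1
          have g2 := T1 K _ _ _ _ _ _ _ _ _ _ hl f2
          have g3 := T2 K _ _ _ _ _ _ _ _ _ _ hk f1
          have g4 := T2 K _ _ _ _ _ _ _ _ _ _ hl f2
          have g5 := T3 K _ _ _ _ _ _ _ _ _ _ f1
          have g6 := T3 K _ _ _ _ _ _ _ _ _ _ f2
          have g7 := T0 K _ _ _ _ _ _ _ _ _ _ f1
          have g8 := T0 K _ _ _ _ _ _ _ _ _ _ f2
          have e2 := hs'.deg_eq
          rw [deg_three] at e2
          have q1 : k2 = l2 := by omega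
          have q2 : k3 = l3 := by omega
          have q3 : k12 = l12 := by omega
          have q4 : k0 = l0 := by omega
          have q5 : k1 = l1 := by omega
          subst q1 q2 q3 q4 q5
          exact hs.trans hs'.symm
      · exact (four_three K t ht k1 k2 k12 k3 k0
          (fun A _ _ hA => hs.holds.1 ((h A).2 hA))).elim
  · intro h A _ _
    exact h.holds

end Pool.Agent.Results.MP_5ecbac_al.ThreeCherries
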