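import Mathlib
import Pool.Agent.Results.MP_5ecbac_al.ThreeCherries

set_option linter.all false

universe u

namespace Pool.Agent.Results.MP_5ecbac_al.Skeleton

open TensorProduct

open ThreeCherries ThreeCherries.Br

/-- The skeleton: every cherry is contracted to a letter, and all other letters are erased. -/
def sk : Br → Br
  | leaf => leaf
  | node leaf leaf => leaf
  | node leaf (node a b) => sk (node a b)
  | node (node a b) leaf => sk (node a b)
  | node (node a b) (node c d) => node (sk (node a b)) (sk (node c d))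

lemma deg_pos (s : Br) : 1 ≤ s.deg := by
  induction s with
  | leaf => simp [deg]
  | node l r hl hr => simp only [deg]; omega

lemma ev_congr {A : Type*} [Bracket A A] (s : Br) : ∀ x y : ℕ → A,
    (∀ i < s.deg, x i = y i) → ev s x = ev s y := by
  induction s with
  | leaf => intro x y h; exact h 0 (by simp [deg])
  | node l r hl hr =>
    intro x y h
    simp only [ev]
    rw [hl x y (fun i hi => h i (by simp only [deg]; omega)),
      hr _ (fun i => y (i + l.deg)) (fun i hi => h _ (by simp only [deg]; omega))]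

lemma comb {A : Type*} [Bracket A A] (l r : Br) (x y : ℕ → A) :
    ∃ z : ℕ → A, ev (node l r) z = ⁅ev l x, ev r y⁆ := by
  refine ⟨fun i => if i < l.deg then x i else y (i - l.deg), ?_⟩
  simp only [ev]
  rw [ev_congr l _ x (fun i hi => by simp [hi]),
    ev_congr r _ y (fun i hi => by simp)]

section verbal

variable (K : Type u) [Field K] {A : Type u} [LieRing A] [LieAlgebra K A]

/-- the verbal subspace -/
def V (A : Type u) [LieRing A] [LieAlgebra K A] : Br → Submodule K A
  | leaf => ⊤
  | node l r => Submodule.span K {z | ∃ x ∈ V A l, ∃ y ∈ V A r, z = ⁅x, y⁆}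

lemma lie_mem_V {l r : Br} {x y : A} (hx : x ∈ V K A l) (hy : y ∈ V K A r) :
    ⁅x, y⁆ ∈ V K A (node l r) := Submodule.subset_span ⟨x, hx, y, hy, rfl⟩

lemma ev_mem (s : Br) : ∀ x : ℕ → A, ev s x ∈ V K A s := by
  induction s with
  | leaf => intro x; exact Submodule.mem_top
  | node l r hl hr => intro x; exact lie_mem_V K (hl _) (hr _)

lemma V_le (s : Br) : V K A s ≤ Submodule.span K (Set.range (ev s : (ℕ → A) → A)) := by
  induction s with
  | leaf =>
    intro x _
    exact Submodule.subset_span ⟨fun _ => x, rfl⟩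
  | node l r hl hr =>
    rw [V, Submodule.span_le]
    rintro z ⟨x, hx, y, hy, rfl⟩
    have hx' := hl hx
    have hy' := hr hy
    clear hx hy
    induction hx' using Submodule.span_induction with
    | mem x hx =>
      obtain ⟨x', rfl⟩ := hx
      induction hy' using Submodule.span_induction with
      | mem y hy =>
        obtain ⟨y', rfl⟩ := hy
        obtain ⟨z, hz⟩ := comb l r x' y'
        exact Submodule.subset_span ⟨z, hz⟩
      | zero => simp
      | add a b _ _ iha ihb =>
        simp only [SetLike.mem_coe] at iha ihb ⊢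
        rw [lie_add]; exact add_mem iha ihb
      | smul c a _ iha =>
        simp only [SetLike.mem_coe] at iha ⊢
        rw [lie_smul]; exact Submodule.smul_mem _ _ iha
    | zero => simp
    | add a b _ _ iha ihb =>
      simp only [SetLike.mem_coe] at iha ihb ⊢
      rw [add_lie]; exact add_mem iha ihb
    | smul c a _ iha =>
      simp only [SetLike.mem_coe] at iha ⊢
      rw [smul_lie]; exact Submodule.smul_mem _ _ iha

lemma holds_iff (s : Br) : Holds A s ↔ V K A s = ⊥ := by
  constructor
  · intro h
    rw [eq_bot_iff]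
    refine (V_le K s).trans ?_
    rw [Submodule.span_le]
    rintro _ ⟨x, rfl⟩
    exact h x
  · intro h x
    have := ev_mem K s x
    rw [h] at this
    exact this

/-- verbal subspaces are closed under derivations -/
lemma V_der (Δ : A →ₗ[K] A) (hΔ : ∀ x y, Δ ⁅x, y⁆ = ⁅Δ x, y⁆ + ⁅x, Δ y⁆) (s : Br) :
    ∀ v ∈ V K A s, Δ v ∈ V K A s := by
  induction s with
  | leaf => intro v _; exact Submodule.mem_top
  | node l r hl hr =>
    intro v hv
    have : V K A (node l r) ≤ (V K A (node l r)).comap Δ := by
      conv_lhs => rw [V]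
      rw [Submodule.span_le]
      rintro z ⟨x, hx, y, hy, rfl⟩
      simp only [SetLike.mem_coe, Submodule.mem_comap]
      rw [hΔ]
      exact add_mem (lie_mem_V K (hl x hx) hy) (lie_mem_V K hx (hr y hy))
    exact this hv

end verbal

/-- derivations -/
structure Der (K : Type u) [Field K] (N : Type u) [LieRing N] [LieAlgebra K N] where
  f : N →ₗ[K] N
  h : ∀ x y, f ⁅x, y⁆ = ⁅f x, y⁆ + ⁅x, f y⁆

section ext

variable {K : Type u} [Field K] {N : Type u} [LieRing N] [LieAlgebra K N]

/-- the extension `K a ⋉ N` -/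
def E (δ : Der K N) : Type u := K × N

variable {δ : Der K N}

instance : AddCommGroup (E δ) := inferInstanceAs (AddCommGroup (K × N))
instance : Module K (E δ) := inferInstanceAs (Module K (K × N))

instance : Bracket (E δ) (E δ) :=
  ⟨fun x y => ((0 : K), ⁅x.2, y.2⁆ + x.1 • δ.f y.2 - y.1 • δ.f x.2)⟩

lemma br_def (x y : E δ) :
    ⁅x, y⁆ = (((0 : K), ⁅x.2, y.2⁆ + x.1 • δ.f y.2 - y.1 • δ.f x.2) : K × N) := rfl

lemma br1 (x y : E δ) : (⁅x, y⁆ : E δ).1 = 0 := rfl
lemma br2 (x y : E δ) : (⁅x, y⁆ : E δ).2 = ⁅x.2, y.2⁆ + x.1 • δ.f y.2 - y.1 • δ.f x.2 := rfl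
lemma add1 (x y : E δ) : (x + y : E δ).1 = x.1 + y.1 := rfl
lemma add2 (x y : E δ) : (x + y : E δ).2 = x.2 + y.2 := rfl
lemma smul1 (c : K) (y : E δ) : (c • y : E δ).1 = c * y.1 := rfl
lemma smul2 (c : K) (y : E δ) : (c • y : E δ).2 = c • y.2 := rfl
lemma zero1 : (0 : E δ).1 = 0 := rfl
lemma zero2 : (0 : E δ).2 = 0 := rfl

lemma E_ext {x y : E δ} (h1 : x.1 = y.1) (h2 : x.2 = y.2) : x = y := Prod.ext h1 h2

instance : LieRing (E δ) where
  add_lie x y z := by
    apply E_ext
    · simp only [br1, add1, add_zero]
    · simp only [br2, add1, add2, add_lie, map_add, smul_add, add_smul]; abel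
  lie_add x y z := by
    apply E_ext
    · simp only [br1, add1, add_zero]
    · simp only [br2, add1, add2, lie_add, map_add, smul_add, add_smul]; abel
  lie_self x := by
    apply E_ext
    · rfl
    · simp only [br2, lie_self, zero2]; abel
  leibniz_lie x y z := by
    apply E_ext
    · simp only [br1, add1, add_zero]
    · simp only [br1, br2, add1, add2, lie_add, map_add, map_sub, map_smul, δ.h, lie_sub, add_lie,
        sub_lie, lie_smul, smul_lie, zero_smul]
      have h1 := leibniz_lie x.2 y.2 z.2
      have h2 := lie_skew (δ.f x.2) y.2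
      linear_combination (norm := module) h1 - z.1 • h2

instance : LieAlgebra K (E δ) where
  lie_smul t x y := by
    apply E_ext
    · simp only [br1, smul1, mul_zero]
    · simp only [br2, smul1, smul2, lie_smul, map_smul]; module


/-- the action of an element of `E δ` on `N` -/
def act (z : E δ) : N →ₗ[K] N where
  toFun x := ⁅x, z.2⁆ - z.1 • δ.f x
  map_add' x y := by simp only [add_lie, map_add, smul_add]; abel
  map_smul' c x := by simp only [smul_lie, map_smul, RingHom.id_apply]; module

lemma act_der (z : E δ) (x y : N) : act z ⁅x, y⁆ = ⁅act z x, y⁆ + ⁅x, act z y⁆ := by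
  simp only [act, LinearMap.coe_mk, AddHom.coe_mk, δ.h, sub_lie, lie_sub, smul_lie, lie_smul]
  have h1 := leibniz_lie x y z.2
  have h2 := lie_skew ⁅x, z.2⁆ y
  linear_combination (norm := module) -h1 + h2

lemma ev_ext : ∀ (s : Br), s ≠ leaf → ∀ x : ℕ → E δ, (ev s x).1 = 0 ∧ (ev s x).2 ∈ V K N (sk s)
  | leaf, h, _ => absurd rfl h
  | node leaf leaf, _, x => ⟨rfl, Submodule.mem_top⟩
  | node leaf (node a b), _, x => by
    obtain ⟨h1, h2⟩ := ev_ext (node a b) (by simp) (fun i => x (i + 1))
    refine ⟨rfl, ?_⟩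
    have e : (ev (node leaf (node a b)) x).2 = - act (x 0) (ev (node a b) (fun i => x (i + 1))).2 := by
      have : ev (node leaf (node a b)) x = ⁅x 0, ev (node a b) (fun i => x (i + 1))⁆ := rfl
      rw [this, br2, h1]
      simp only [act, LinearMap.coe_mk, AddHom.coe_mk, zero_smul]
      have h3 := lie_skew (x 0).2 (ev (node a b) (fun i => x (i + 1))).2
      linear_combination (norm := module) -h3
    rw [e, sk]
    exact neg_mem (V_der K _ (act_der (x 0)) _ _ h2)
  | node (node a b) leaf, _, x => by
    obtain ⟨h1, h2⟩ := ev_ext (node a b) (by simp) x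
    refine ⟨rfl, ?_⟩
    have e : (ev (node (node a b) leaf) x).2 =
        act (x (0 + (node a b).deg)) (ev (node a b) x).2 := by
      have : ev (node (node a b) leaf) x = ⁅ev (node a b) x, x (0 + (node a b).deg)⁆ := rfl
      rw [this, br2, h1]
      simp only [act, LinearMap.coe_mk, AddHom.coe_mk, zero_smul, add_zero]
    rw [e, sk]
    exact V_der K _ (act_der _) _ _ h2
  | node (node a b) (node c d), _, x => by
    obtain ⟨h1, h2⟩ := ev_ext (node a b) (by simp) x
    obtain ⟨h3, h4⟩ := ev_ext (node c d) (by simp) (fun i => x (i + (node a b).deg))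
    refine ⟨rfl, ?_⟩
    have e : (ev (node (node a b) (node c d)) x).2 =
        ⁅(ev (node a b) x).2, (ev (node c d) (fun i => x (i + (node a b).deg))).2⁆ := by
      have : ev (node (node a b) (node c d)) x =
        ⁅ev (node a b) x, ev (node c d) (fun i => x (i + (node a b).deg))⁆ := rfl
      rw [this, br2, h1, h3]
      simp only [zero_smul, add_zero, sub_zero]
    rw [e, sk]
    exact lie_mem_V K h2 h4

lemma holds_ext (δ : Der K N) (s : Br) (hs : s ≠ leaf) (h : Holds N (sk s)) : Holds (E δ) s := by
  intro x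
  obtain ⟨h1, h2⟩ := ev_ext s hs x
  rw [(holds_iff K (sk s)).1 h] at h2
  exact E_ext h1 h2


variable (δ) in
/-- the element `a` -/
def el : E δ := ((1 : K), (0 : N))

variable (δ) in
/-- an element of `N` -/
def en (n : N) : E δ := ((0 : K), n)

lemma el_en (n : N) : ⁅el δ, en δ n⁆ = en δ (δ.f n) := by
  apply E_ext
  · rfl
  · rw [br2]; simp [el, en]

lemma en_el (n : N) : ⁅en δ n, el δ⁆ = en δ (-δ.f n) := by
  apply E_ext
  · rfl
  · rw [br2]; simp [el, en]

lemma en_en (n n' : N) : ⁅en δ n, en δ n'⁆ = en δ ⁅n, n'⁆ := by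
  apply E_ext
  · rfl
  · rw [br2]; simp [en]

lemma en_inj {n : N} (h : (0 : E δ) = en δ n) : n = 0 := (congrArg Prod.snd h).symm

end ext


section tensor

variable (K : Type u) [Field K] (R : Type u) [CommRing R] [Algebra K R]
  (B : Type u) [LieRing B] [LieAlgebra K B]

/-- the derivation `D ⊗ 1` of `R ⊗ B` -/
noncomputable def tder (D : R →ₗ[K] R) (hD : ∀ x y, D (x * y) = D x * y + x * D y) :
    Der K (R ⊗[K] B) where
  f := D.rTensor B
  h x y := by
    induction x using TensorProduct.induction_on with
    | zero => simp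
    | add a b ha hb => simp only [add_lie, map_add, ha, hb]; abel
    | tmul r b =>
      induction y using TensorProduct.induction_on with
      | zero => simp
      | add a b ha hb => simp only [lie_add, map_add, ha, hb]; abel
      | tmul s c =>
        simp only [LieAlgebra.ExtendScalars.bracket_tmul, LinearMap.rTensor_tmul, hD,
          TensorProduct.add_tmul]

lemma V_tensor (s : Br) : V K (R ⊗[K] B) s ≤
    Submodule.span K {z | ∃ r : R, ∃ b ∈ V K B s, z = r ⊗ₜ[K] b} := by
  induction s with
  | leaf =>
    intro z _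
    induction z using TensorProduct.induction_on with
    | zero => exact zero_mem _
    | add a b ha hb => exact add_mem (ha trivial) (hb trivial)
    | tmul r b => exact Submodule.subset_span ⟨r, b, Submodule.mem_top, rfl⟩
  | node l r hl hr =>
    conv_lhs => rw [V]
    rw [Submodule.span_le]
    rintro z ⟨x, hx, y, hy, rfl⟩
    have hx' := hl hx
    have hy' := hr hy
    clear hx hy
    induction hx' using Submodule.span_induction with
    | mem x hx =>
      obtain ⟨r1, b1, hb1, rfl⟩ := hx
      induction hy' using Submodule.span_induction with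
      | mem y hy =>
        obtain ⟨r2, b2, hb2, rfl⟩ := hy
        exact Submodule.subset_span ⟨r1 * r2, ⁅b1, b2⁆, lie_mem_V K hb1 hb2, by
          rw [LieAlgebra.ExtendScalars.bracket_tmul]⟩
      | zero => simp
      | add a b _ _ iha ihb =>
        simp only [SetLike.mem_coe] at iha ihb ⊢
        rw [lie_add]; exact add_mem iha ihb
      | smul c a _ iha =>
        simp only [SetLike.mem_coe] at iha ⊢
        rw [lie_smul]; exact Submodule.smul_mem _ _ iha
    | zero => simp
    | add a b _ _ iha ihb =>
      simp only [SetLike.mem_coe] at iha ihb ⊢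
      rw [add_lie]; exact add_mem iha ihb
    | smul c a _ iha =>
      simp only [SetLike.mem_coe] at iha ⊢
      rw [smul_lie]; exact Submodule.smul_mem _ _ iha

lemma holds_tensor (s : Br) (h : Holds B s) : Holds (R ⊗[K] B) s := by
  rw [holds_iff K, eq_bot_iff]
  refine (V_tensor K R B s).trans ?_
  rw [Submodule.span_le]
  rintro z ⟨r, b, hb, rfl⟩
  rw [(holds_iff K s).1 h] at hb
  rw [(Submodule.mem_bot K).1 hb]
  simp

end tensor


section weights

variable (K : Type u) [Field K]

open MvPolynomial in
/-- the derivation with `D y_i = X ^ i y_i` -/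
noncomputable def D : Derivation (Polynomial K) (MvPolynomial ℕ (Polynomial K))
    (MvPolynomial ℕ (Polynomial K)) :=
  mkDerivation (Polynomial K) (fun i => C (Polynomial.X ^ i) * X i)

/-- the same as a `K`-linear map -/
noncomputable def Dk : MvPolynomial ℕ (Polynomial K) →ₗ[K] MvPolynomial ℕ (Polynomial K) :=
  (D K).toLinearMap.restrictScalars K

lemma Dk_apply (x : MvPolynomial ℕ (Polynomial K)) : Dk K x = D K x := rfl

lemma Dk_mul (x y : MvPolynomial ℕ (Polynomial K)) :
    Dk K (x * y) = Dk K x * y + x * Dk K y := by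
  simp only [Dk_apply, Derivation.leibniz, smul_eq_mul]; ring

/-- a monomial -/
noncomputable def mono (m c : ℕ) : MvPolynomial ℕ (Polynomial K) :=
  ∏ i ∈ Finset.range c, MvPolynomial.X (m + i)

lemma mono_ne (m c : ℕ) : mono K m c ≠ 0 :=
  Finset.prod_ne_zero_iff.2 (fun i _ => MvPolynomial.X_ne_zero _)

lemma mono_add (m c d : ℕ) : mono K m (c + d) = mono K m c * mono K (m + c) d := by
  simp only [mono, Finset.prod_range_add, add_assoc]

/-- its weight -/
noncomputable def lam (m c : ℕ) : Polynomial K := ∑ i ∈ Finset.range c, Polynomial.X ^ (m + i)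

lemma lam_ne (m c : ℕ) (hc : 1 ≤ c) : lam K m c ≠ 0 := by
  intro h
  have h1 := congrArg (fun p => Polynomial.coeff p m) h
  simp only [lam, Polynomial.finset_sum_coeff, Polynomial.coeff_X_pow, Polynomial.coeff_zero] at h1
  rw [Finset.sum_eq_single 0] at h1
  · simp at h1
  · intro i _ hi
    rw [if_neg (by omega)]
  · intro h; simp at h; omega

lemma D_mono (m c : ℕ) : D K (mono K m c) = MvPolynomial.C (lam K m c) * mono K m c := by
  induction c with
  | zero => simp [mono, lam]
  | succ c ih =>
    rw [mono_add, Derivation.leibniz, ih]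
    have e1 : mono K (m + c) 1 = MvPolynomial.X (m + c) := by simp [mono]
    have e2 : lam K m (c + 1) = lam K m c + Polynomial.X ^ (m + c) := by
      simp [lam, Finset.sum_range_succ]
    rw [e1, e2, D, MvPolynomial.mkDerivation_X, map_add]
    simp only [smul_eq_mul]
    ring

lemma Dk_mono (κ : Polynomial K) (m c : ℕ) : Dk K (MvPolynomial.C κ * mono K m c) =
    MvPolynomial.C (κ * lam K m c) * mono K m c := by
  have e : MvPolynomial.C κ * mono K m c = κ • mono K m c := by
    rw [MvPolynomial.C_mul']
  rw [Dk_apply, e, (D K).map_smul, D_mono, MvPolynomial.smul_eq_C_mul, map_mul]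
  ring

variable (B : Type u) [LieRing B] [LieAlgebra K B]

/-- the derivation of `R ⊗ B` -/
noncomputable abbrev dl : Der K (MvPolynomial ℕ (Polynomial K) ⊗[K] B) :=
  tder K (MvPolynomial ℕ (Polynomial K)) B (Dk K) (Dk_mul K)

lemma dl_tmul (r : MvPolynomial ℕ (Polynomial K)) (b : B) :
    (dl K B).f (r ⊗ₜ[K] b) = (Dk K r) ⊗ₜ[K] b := rfl

/-- the pure tensor -/
noncomputable def pt (κ : Polynomial K) (m c : ℕ) (v : B) :
    MvPolynomial ℕ (Polynomial K) ⊗[K] B :=
  (MvPolynomial.C κ * mono K m c) ⊗ₜ[K] v

lemma pt_D (κ : Polynomial K) (m c : ℕ) (v : B) :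
    (dl K B).f (pt K B κ m c v) = pt K B (κ * lam K m c) m c v := by
  rw [pt, dl_tmul, Dk_mono, pt]

lemma pt_neg (κ : Polynomial K) (m c : ℕ) (v : B) : -(pt K B κ m c v) = pt K B (-κ) m c v := by
  have e : MvPolynomial.C (-κ) * mono K m c = -(MvPolynomial.C κ * mono K m c) := by
    rw [map_neg]; ring
  rw [pt, pt, e, TensorProduct.neg_tmul]

lemma pt_lie (κ κ' : Polynomial K) (m c c' : ℕ) (v v' : B) :
    ⁅pt K B κ m c v, pt K B κ' (m + c) c' v'⁆ = pt K B (κ * κ') m (c + c') ⁅v, v'⁆ := by
  have e : MvPolynomial.C (κ * κ') * mono K m (c + c') =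
      (MvPolynomial.C κ * mono K m c) * (MvPolynomial.C κ' * mono K (m + c) c') := by
    rw [map_mul, mono_add]; ring
  rw [pt, pt, pt, e, LieAlgebra.ExtendScalars.bracket_tmul]

/-- realisation of the skeleton -/
def Q (t t' : Br) : Prop := ∀ (m : ℕ) (b : ℕ → B), ∃ x : ℕ → E (dl K B),
    ∃ κ : Polynomial K, κ ≠ 0 ∧ ev t x = en (dl K B) (pt K B κ m t'.deg (ev t' b))

lemma Q_cherry : Q K B (node leaf leaf) leaf := by
  intro m b
  obtain ⟨z, hz⟩ := comb leaf leaf (fun _ => el (dl K B))
      (fun _ => en (dl K B) (pt K B 1 m 1 (b 0)))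
  refine ⟨z, 1 * lam K m 1, mul_ne_zero one_ne_zero (lam_ne K m 1 le_rfl), ?_⟩
  rw [hz]
  change ⁅el (dl K B), en (dl K B) (pt K B 1 m 1 (b 0))⁆ = _
  rw [el_en, pt_D]
  rfl

lemma Q_l {t t' : Br} (h : Q K B t t') : Q K B (node leaf t) t' := by
  intro m b
  obtain ⟨x, κ, hκ, hx⟩ := h m b
  obtain ⟨z, hz⟩ := comb leaf t (fun _ => el (dl K B)) x
  refine ⟨z, κ * lam K m t'.deg, mul_ne_zero hκ (lam_ne K m _ (deg_pos _)), ?_⟩
  rw [hz, hx]
  change ⁅el (dl K B), en (dl K B) _⁆ = _
  rw [el_en, pt_D]

lemma Q_r {t t' : Br} (h : Q K B t t') : Q K B (node t leaf) t' := by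
  intro m b
  obtain ⟨x, κ, hκ, hx⟩ := h m b
  obtain ⟨z, hz⟩ := comb t leaf x (fun _ => el (dl K B))
  refine ⟨z, -(κ * lam K m t'.deg),
    neg_ne_zero.2 (mul_ne_zero hκ (lam_ne K m _ (deg_pos _))), ?_⟩
  rw [hz, hx]
  change ⁅en (dl K B) _, el (dl K B)⁆ = _
  rw [en_el, pt_D, pt_neg]

lemma Q_node {t t' r r' : Br} (h : Q K B t t') (h' : Q K B r r') :
    Q K B (node t r) (node t' r') := by
  intro m b
  obtain ⟨x, κ, hκ, hx⟩ := h m b
  obtain ⟨x', κ', hκ', hx'⟩ := h' (m + t'.deg) (fun i => b (i + t'.deg))
  obtain ⟨z, hz⟩ := comb t r x x'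
  refine ⟨z, κ * κ', mul_ne_zero hκ hκ', ?_⟩
  rw [hz, hx, hx', en_en, pt_lie]
  rfl

lemma main : ∀ (t : Br), t ≠ leaf → Q K B t (sk t)
  | leaf, h => absurd rfl h
  | node leaf leaf, _ => by rw [sk]; exact Q_cherry K B
  | node leaf (node p q), _ => by rw [sk]; exact Q_l K B (main (node p q) (by simp))
  | node (node p q) leaf, _ => by rw [sk]; exact Q_r K B (main (node p q) (by simp))
  | node (node p q) (node p' q'), _ => by
    rw [sk]; exact Q_node K B (main (node p q) (by simp)) (main (node p' q') (by simp))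

lemma tmul_zero_of (R : Type u) [CommRing R] [Algebra K R] (r : R) (hr : r ≠ 0) (b : B)
    (h : r ⊗ₜ[K] b = 0) : b = 0 := by
  by_contra hb
  have : ∃ φ : Module.Dual K R, φ r ≠ 0 := by
    by_contra hn
    push Not at hn
    exact hr ((Module.forall_dual_apply_eq_zero_iff K r).1 hn)
  obtain ⟨φ, hφ⟩ := this
  have h1 := congrArg (fun z => TensorProduct.lid K B (φ.rTensor B z)) h
  simp only [LinearMap.rTensor_tmul, TensorProduct.lid_tmul, map_zero] at h1
  exact (smul_ne_zero hφ hb) h1

lemma half (s t : Br) (hs : s ≠ leaf) (ht : t ≠ leaf)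
    (h : ∀ (A : Type u) [LieRing A] [LieAlgebra K A], Holds A s → Holds A t)
    (hB : Holds B (sk s)) : Holds B (sk t) := by
  intro b
  have h1 : Holds (E (dl K B)) t :=
    h _ (holds_ext _ s hs (holds_tensor K (MvPolynomial ℕ (Polynomial K)) B (sk s) hB))
  obtain ⟨x, κ, hκ, hx⟩ := main K B t ht 0 b
  rw [h1 x] at hx
  have h2 := en_inj hx
  exact tmul_zero_of K B _ _ (mul_ne_zero (by simpa using hκ) (mono_ne K _ _)) _ h2

end weights


section degree

attribute [local instance 100] LieRing.ofAssociativeRing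

variable (K : Type u) [Field K] (d : ℕ)

/-- strictly upper triangular matrices -/
def S : LieSubalgebra K (Matrix (Fin (d + 1)) (Fin (d + 1)) K) where
  carrier := {M | ∀ i j : Fin (d + 1), j.val ≤ i.val → M i j = 0}
  add_mem' {a b} ha hb i j h := by rw [Matrix.add_apply, ha i j h, hb i j h, add_zero]
  zero_mem' i j h := rfl
  smul_mem' c a ha i j h := by rw [Matrix.smul_apply, ha i j h, smul_zero]
  lie_mem' {a b} ha hb i j h := by
    rw [Ring.lie_def, Matrix.sub_apply, Matrix.mul_apply, Matrix.mul_apply,
      Finset.sum_eq_zero, Finset.sum_eq_zero, sub_zero]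
    · intro k _
      rcases Nat.lt_or_ge i.val k.val with hk | hk
      · rw [ha k j (by omega), mul_zero]
      · rw [hb i k hk, zero_mul]
    · intro k _
      rcases Nat.lt_or_ge i.val k.val with hk | hk
      · rw [hb k j (by omega), mul_zero]
      · rw [ha i k hk, zero_mul]

lemma up (s : Br) : ∀ (x : ℕ → Matrix (Fin (d + 1)) (Fin (d + 1)) K),
    (∀ n, ∀ i j : Fin (d + 1), j.val ≤ i.val → x n i j = 0) →
    ∀ i j : Fin (d + 1), j.val < i.val + s.deg → (ev s x) i j = 0 := by
  induction s with
  | leaf => intro x hx i j h; exact hx 0 i j (by simp only [deg] at h; omega)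
  | node l r hl hr =>
    intro x hx i j h
    simp only [deg] at h
    have h1 := hl x hx
    have h2 := hr (fun i => x (i + l.deg)) (fun n => hx _)
    simp only [ev]
    rw [Ring.lie_def, Matrix.sub_apply, Matrix.mul_apply, Matrix.mul_apply,
      Finset.sum_eq_zero, Finset.sum_eq_zero, sub_zero]
    · intro k _
      rcases Nat.lt_or_ge k.val (i.val + r.deg) with hk | hk
      · rw [h2 i k hk, zero_mul]
      · rw [h1 k j (by omega), mul_zero]
    · intro k _
      rcases Nat.lt_or_ge k.val (i.val + l.deg) with hk | hk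
      · rw [h1 i k hk, zero_mul]
      · rw [h2 k j (by omega), mul_zero]

/-- matrix units -/
def U (m p : ℕ) : Matrix (Fin (d + 1)) (Fin (d + 1)) K :=
  Matrix.of fun i j => if i.val = m ∧ j.val = p then 1 else 0

lemma U_mul (m p q : ℕ) (hpq : p < q) : U K d m p * U K d p q = U K d m q := by
  ext i j
  simp only [Matrix.mul_apply, U, Matrix.of_apply]
  by_cases h : i.val = m ∧ j.val = q
  · rw [if_pos h, Finset.sum_eq_single ⟨p, by omega⟩]
    · simp [h.1, h.2]
    · intro k _ hk
      have : k.val ≠ p := fun h0 => hk (Fin.ext h0)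
      rw [if_neg (by tauto), zero_mul]
    · intro h0; exact absurd (Finset.mem_univ _) h0
  · rw [if_neg h]
    refine Finset.sum_eq_zero (fun k _ => ?_)
    by_cases h1 : i.val = m
    · rw [if_neg (c := k.val = p ∧ j.val = q) (by tauto), mul_zero]
    · rw [if_neg (by tauto), zero_mul]

lemma U_mul0 (p q m r : ℕ) (h : q ≠ m) : U K d p q * U K d m r = 0 := by
  ext i j
  simp only [Matrix.mul_apply, U, Matrix.of_apply, Matrix.zero_apply]
  refine Finset.sum_eq_zero (fun k _ => ?_)
  by_cases h1 : k.val = q
  · rw [if_neg (c := k.val = m ∧ j.val = r) (by omega), mul_zero]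
  · rw [if_neg (by tauto), zero_mul]

lemma ev_U (t : Br) : ∀ m : ℕ, ev t (fun n => U K d (n + m) (n + m + 1)) =
    U K d m (m + t.deg) := by
  induction t with
  | leaf => intro m; simp only [ev, deg, Nat.zero_add]
  | node l r hl hr =>
    intro m
    have h2 := hr (l.deg + m)
    simp only [ev, deg]
    have e : (fun i => U K d (i + l.deg + m) (i + l.deg + m + 1)) =
        fun n => U K d (n + (l.deg + m)) (n + (l.deg + m) + 1) := by
      funext n; rw [add_assoc]
    rw [e, h2, hl m, Ring.lie_def, add_comm l.deg m, U_mul K d _ _ _ (by have := deg_pos r; omega),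
      U_mul0 K d _ _ _ _ (by have := deg_pos r; have := deg_pos l; omega), sub_zero, add_assoc]

lemma ev_coe (s : Br) : ∀ x : ℕ → S K d, ((ev s x : S K d) : Matrix (Fin (d + 1)) (Fin (d + 1)) K) =
    ev s (fun n => (x n : Matrix (Fin (d + 1)) (Fin (d + 1)) K)) := by
  induction s with
  | leaf => intro x; rfl
  | node l r hl hr =>
    intro x
    simp only [ev, LieSubalgebra.coe_bracket, hl, hr]

lemma deg_le (s t : Br)
    (h : ∀ (A : Type u) [LieRing A] [LieAlgebra K A], Holds A s → Holds A t) :
    s.deg ≤ t.deg := by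
  by_contra hlt
  push Not at hlt
  have h1 : Holds (S K t.deg) s := by
    intro x
    apply Subtype.ext
    rw [ev_coe]
    ext i j
    exact up K t.deg s _ (fun n => (x n).2) i j (by have := j.2; omega)
  have h2 := h _ h1 (fun n => ⟨U K t.deg n (n + 1), fun i j hij => by
    simp only [U, Matrix.of_apply]; rw [if_neg (by omega)]⟩)
  have h3 := congrArg (fun z : S K t.deg =>
    (z : Matrix (Fin (t.deg + 1)) (Fin (t.deg + 1)) K)) h2
  rw [ev_coe] at h3
  have h4 := ev_U K t.deg t 0
  simp only [add_zero] at h4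
  rw [h4] at h3
  have h5 := congrFun (congrFun h3 ⟨0, by omega⟩) ⟨t.deg, by omega⟩
  simp [U] at h5

lemma deg_eq (s t : Br) (h : EquivId K s t) : s.deg = t.deg :=
  le_antisymm (deg_le K s t (fun A _ _ hA => (h A).1 hA))
    (deg_le K t s (fun A _ _ hA => (h A).2 hA))

end degree

/-- the skeleton theorem -/
theorem skeleton (K : Type u) [Field K] (s t : Br) (hs : s ≠ leaf) (ht : t ≠ leaf)
    (h : EquivId K s t) : EquivId K (sk s) (sk t) := fun B _ _ =>
  ⟨half K B s t hs ht (fun A _ _ hA => (h A).1 hA),
    half K B t s ht hs (fun A _ _ hA => (h A).2 hA)⟩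


/-- Doubling: every letter is replaced by a cherry. -/
def dbl : Br → Br
  | leaf => node leaf leaf
  | node l r => node (dbl l) (dbl r)

lemma sk_lnode (s : Br) (hs : s ≠ leaf) : sk (node leaf s) = sk s := by
  cases s with
  | leaf => exact absurd rfl hs
  | node a b => rw [sk]

lemma sk_noder (s : Br) (hs : s ≠ leaf) : sk (node s leaf) = sk s := by
  cases s with
  | leaf => exact absurd rfl hs
  | node a b => rw [sk]

lemma sk_node (s t : Br) (hs : s ≠ leaf) (ht : t ≠ leaf) : sk (node s t) = node (sk s) (sk t) := by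
  cases s with
  | leaf => exact absurd rfl hs
  | node a b =>
    cases t with
    | leaf => exact absurd rfl ht
    | node c d => rw [sk]

lemma dbl_ne (s : Br) : dbl s ≠ leaf := by cases s <;> simp [dbl]

lemma sk_dbl (s : Br) : sk (dbl s) = s := by
  induction s with
  | leaf => rfl
  | node l r hl hr => rw [dbl, sk_node _ _ (dbl_ne l) (dbl_ne r), hl, hr]

lemma deg_dbl (s : Br) : (dbl s).deg = 2 * s.deg := by
  induction s with
  | leaf => rfl
  | node l r hl hr => simp only [dbl, deg, hl, hr]; ring

lemma deg_sk (s : Br) (hs : s ≠ leaf) :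
    2 * (sk s).deg ≤ s.deg ∧ (2 * (sk s).deg = s.deg → s = dbl (sk s)) := by
  induction s with
  | leaf => exact absurd rfl hs
  | node l r hl hr =>
    by_cases h1 : l = leaf
    · by_cases h2 : r = leaf
      · subst h1 h2
        exact ⟨le_rfl, fun _ => rfl⟩
      · subst h1
        rw [sk_lnode r h2]
        have := hr h2
        simp only [deg]
        exact ⟨by omega, fun h => by omega⟩
    · by_cases h2 : r = leaf
      · subst h2
        rw [sk_noder l h1]
        have := hl h1
        simp only [deg]
        exact ⟨by omega, fun h => by omega⟩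
      · rw [sk_node l r h1 h2]
        have e1 := hl h1
        have e2 := hr h2
        simp only [deg]
        refine ⟨by omega, fun h => ?_⟩
        rw [dbl, ← e1.2 (by omega), ← e2.2 (by omega)]

lemma CEq_dbl {s t : Br} (h : CEq s t) : CEq (dbl s) (dbl t) := by
  induction h with
  | refl s => exact CEq.refl _
  | symm _ ih => exact ih.symm
  | trans _ _ ih1 ih2 => exact ih1.trans ih2
  | comm s t => exact CEq.comm _ _
  | congr _ _ ih1 ih2 => exact CEq.congr ih1 ih2

/-- Bahturin's question has a positive answer for all pairs `(r, t)`. -/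
def Good (K : Type u) [Field K] (r : Br) : Prop := ∀ t : Br, EquivId K r t → CEq r t

lemma good_dbl (K : Type u) [Field K] (r : Br) (h : Good K r) : Good K (dbl r) := by
  intro t ht
  have hd := deg_eq K _ _ ht
  rw [deg_dbl] at hd
  have hp := deg_pos r
  have ht' : t ≠ leaf := by
    rintro rfl
    simp only [deg] at hd
    omega
  have h1 := skeleton K _ _ (dbl_ne r) ht' ht
  rw [sk_dbl] at h1
  have hd2 := deg_eq K _ _ h1
  have e := (deg_sk t ht').2 (by omega)
  rw [e]
  exact CEq_dbl (h _ h1)

lemma good_iter (K : Type u) [Field K] (r : Br) (h : Good K r) (k : ℕ) : Good K (dbl^[k] r) := by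
  induction k with
  | zero => exact h
  | succ k ih => rw [Function.iterate_succ_apply']; exact good_dbl K _ ih

lemma sk_iter (K : Type u) [Field K] (s t : Br) (h : EquivId K s t) (j : ℕ) :
    EquivId K (sk^[j] s) (sk^[j] t) := by
  induction j with
  | zero => exact h
  | succ j ih =>
    rw [Function.iterate_succ_apply', Function.iterate_succ_apply']
    by_cases h1 : sk^[j] s = leaf
    · have hd := deg_eq K _ _ ih
      rw [h1] at hd ⊢
      have h2 : sk^[j] t = leaf := by
        cases h3 : sk^[j] t with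
        | leaf => rfl
        | node a b =>
          rw [h3] at hd
          have := deg_pos a
          have := deg_pos b
          simp only [deg] at hd
          omega
      rw [h2]
      exact fun A _ _ => Iff.rfl
    · by_cases h2 : sk^[j] t = leaf
      · have hd := deg_eq K _ _ ih
        rw [h2] at hd
        exfalso
        apply h1
        cases h3 : sk^[j] s with
        | leaf => rfl
        | node a b =>
          rw [h3] at hd
          have := deg_pos a
          have := deg_pos b
          simp only [deg] at hd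
          omega
      · exact skeleton K _ _ h1 h2 ih

lemma holds_of_CEq {K : Type u} [Field K] {s t : Br} (h : CEq s t) : EquivId K s t :=
  fun A _ _ => h.holds

/-- **Theorem.** Let `K` be any field.
(1) If `w_s = 0` and `w_t = 0` hold in the same Lie algebras over `K`, then for every `j` the
`j`-fold skeletons of `s` and `t` have the same degree and define equivalent identities.
(2) If `s` arises from a bracket structure `r` with at most three cherries by doubling all letters
`k` times (`k` arbitrary) and `t` is any bracket structure, then the identities `w_s = 0`,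
`w_t = 0` hold in the same Lie algebras over `K` if and only if `s` and `t` coincide in the free
commutative groupoid on one letter. -/
theorem result (K : Type u) [Field K] :
    (∀ s t : Br, EquivId K s t →
      ∀ j : ℕ, (sk^[j] s).deg = (sk^[j] t).deg ∧ EquivId K (sk^[j] s) (sk^[j] t)) ∧
    (∀ (r : Br) (k : ℕ) (t : Br), r.cherries ≤ 3 →
      (EquivId K (dbl^[k] r) t ↔ CEq (dbl^[k] r) t)) := by
  refine ⟨fun s t h j => ⟨deg_eq K _ _ (sk_iter K s t h j), sk_iter K s t h j⟩,
    fun r k t hr => ⟨fun h => ?_, fun h => holds_of_CEq h⟩⟩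
  exact good_iter K r (fun t' h' =>
    (ThreeCherries.result K r t' (deg_eq K _ _ h') hr).1 h') k t h

end Pool.Agent.Results.MP_5ecbac_al.Skeleton
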