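import Mathlib

/-!
Multilinear Lie monomials: Bahturin's question for all bracket structures with at most two cherries.
-/

set_option linter.all false

universe u

namespace Pool.Agent.Results.MP_5ecbac_al.TwoCherries

/-- Bracket structures: full binary bracketings of a word `x_1 x_2 ... x_n`. -/
inductive Br : Type
  | leaf : Br
  | node : Br → Br → Br

namespace Br

/-- The degree (number of letters). -/
def deg : Br → ℕ
  | leaf => 1
  | node l r => deg l + deg r

/-- The multilinear Lie monomial `w_σ` evaluated at `x 0, x 1, ..., x (deg σ - 1)`. -/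
def ev {A : Type*} [Bracket A A] : Br → (ℕ → A) → A
  | leaf, x => x 0
  | node l r, x => ⁅ev l x, ev r (fun i => x (i + deg l))⁆

/-- The number of cherries: nodes both of whose children are leaves, i.e. the number of innermost
brackets `[x_i, x_{i+1}]`. -/
def cherries : Br → ℕ
  | leaf => 0
  | node leaf leaf => 1
  | node l r => cherries l + cherries r

end Br

open Br

/-- Equality in the free commutative groupoid on one letter: the congruence generated by
`uv = vu`. -/
inductive CEq : Br → Br → Prop
  | refl (s : Br) : CEq s s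
  | symm {s t : Br} : CEq s t → CEq t s
  | trans {s t r : Br} : CEq s t → CEq t r → CEq s r
  | comm (s t : Br) : CEq (node s t) (node t s)
  | congr {s s' t t' : Br} : CEq s s' → CEq t t' → CEq (node s t) (node s' t')

/-- The identity `w_σ = 0` holds in `A`. -/
def Holds (A : Type*) [LieRing A] (s : Br) : Prop := ∀ x : ℕ → A, ev s x = 0

/-- The identities `w_σ = 0` and `w_τ = 0` hold in exactly the same Lie algebras over `K`. -/
def EquivId (K : Type u) [Field K] (s t : Br) : Prop :=
  ∀ (A : Type u) [LieRing A] [LieAlgebra K A], Holds A s ↔ Holds A t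

/-! ### combinatorics of bracket structures -/

lemma deg_pos (s : Br) : 1 ≤ s.deg := by
  induction s with
  | leaf => simp [deg]
  | node l r hl hr => simp only [deg]; omega

lemma CEq.deg_eq {s t : Br} (h : CEq s t) : s.deg = t.deg := by
  induction h with
  | refl s => rfl
  | symm _ ih => exact ih.symm
  | trans _ _ ih1 ih2 => exact ih1.trans ih2
  | comm s t => simp only [deg]; omega
  | congr _ _ ih1 ih2 => simp only [deg]; omega

lemma cherries_pos (l r : Br) : 1 ≤ (node l r).cherries := by
  induction l generalizing r with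
  | leaf =>
    induction r with
    | leaf => simp [cherries]
    | node a b iha ihb =>
      have e : (node leaf (node a b)).cherries = (leaf).cherries + (node a b).cherries := by
        simp [cherries]
      rw [e]
      cases a with
      | leaf =>
        cases b with
        | leaf => simp [cherries]
        | node c d =>
          have := ihb
          have e2 : (node leaf (node c d)).cherries = leaf.cherries + (node c d).cherries := by
            simp [cherries]
          rw [e2] at this ⊢
          omega
      | node c d =>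
        have e2 : (node leaf (node c d)).cherries = leaf.cherries + (node c d).cherries := by
          simp [cherries]
        have e3 : (node (node c d) b).cherries = (node c d).cherries + b.cherries := by
          cases b <;> simp [cherries]
        rw [e2] at iha
        rw [e3]
        simp only [cherries] at iha ⊢
        omega
  | node a b iha ihb =>
    have e3 : (node (node a b) r).cherries = (node a b).cherries + r.cherries := by
      cases r <;> simp [cherries]
    rw [e3]
    have := iha b
    omega

lemma cherries_node (l r : Br) (h : ¬ (l = leaf ∧ r = leaf)) :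
    (node l r).cherries = l.cherries + r.cherries := by
  cases l with
  | leaf =>
    cases r with
    | leaf => exact absurd ⟨rfl, rfl⟩ h
    | node a b => simp [cherries]
  | node a b => cases r <;> simp [cherries]

/-- hang `k` leaves -/
def hang (t : Br) : ℕ → Br
  | 0 => t
  | k + 1 => node (hang t k) leaf

def cat (m : ℕ) : Br := hang (node leaf leaf) m

def two (i j k : ℕ) : Br := hang (node (cat i) (cat j)) k

lemma deg_hang (t : Br) (k : ℕ) : (hang t k).deg = t.deg + k := by
  induction k with
  | zero => rfl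
  | succ k ih => simp only [hang, deg, ih]; omega

lemma deg_cat (m : ℕ) : (cat m).deg = m + 2 := by
  rw [cat, deg_hang]; simp only [deg]; omega

lemma deg_two (i j k : ℕ) : (two i j k).deg = i + j + k + 4 := by
  rw [two, deg_hang]; simp only [deg, deg_cat]; omega

lemma cherries_zero {s : Br} (h : s.cherries = 0) : s = leaf := by
  cases s with
  | leaf => rfl
  | node l r => have := cherries_pos l r; omega

lemma cherries_one {s : Br} (h : s.cherries = 1) : ∃ m, CEq s (cat m) := by
  induction s with
  | leaf => simp [cherries] at h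
  | node l r ihl ihr =>
    cases l with
    | leaf =>
      cases r with
      | leaf => exact ⟨0, CEq.refl _⟩
      | node a b =>
        rw [cherries_node _ _ (by simp)] at h
        simp only [cherries, zero_add] at h
        obtain ⟨m, hm⟩ := ihr (by simpa using h)
        exact ⟨m + 1, (CEq.comm _ _).trans (CEq.congr hm (CEq.refl _))⟩
    | node a b =>
      cases r with
      | leaf =>
        rw [cherries_node _ _ (by simp)] at h
        simp only [cherries, add_zero] at h
        obtain ⟨m, hm⟩ := ihl (by simpa using h)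
        exact ⟨m + 1, CEq.congr hm (CEq.refl _)⟩
      | node c d =>
        rw [cherries_node _ _ (by simp)] at h
        have h1 := cherries_pos a b
        have h2 := cherries_pos c d
        omega

lemma two_swap (i j k : ℕ) : CEq (two i j k) (two j i k) := by
  induction k with
  | zero => exact CEq.comm _ _
  | succ k ih => exact CEq.congr ih (CEq.refl _)

lemma cherries_two' {s : Br} (h : s.cherries = 2) : ∃ i j k, CEq s (two i j k) := by
  induction s with
  | leaf => simp [cherries] at h
  | node l r ihl ihr =>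
    cases l with
    | leaf =>
      cases r with
      | leaf => simp [cherries] at h
      | node a b =>
        rw [cherries_node _ _ (by simp)] at h
        simp only [cherries, zero_add] at h
        obtain ⟨i, j, k, hm⟩ := ihr (by simpa using h)
        exact ⟨i, j, k + 1, (CEq.comm _ _).trans (CEq.congr hm (CEq.refl _))⟩
    | node a b =>
      cases r with
      | leaf =>
        rw [cherries_node _ _ (by simp)] at h
        simp only [cherries, add_zero] at h
        obtain ⟨i, j, k, hm⟩ := ihl (by simpa using h)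
        exact ⟨i, j, k + 1, CEq.congr hm (CEq.refl _)⟩
      | node c d =>
        rw [cherries_node _ _ (by simp)] at h
        have h1 := cherries_pos a b
        have h2 := cherries_pos c d
        obtain ⟨i, hi⟩ := cherries_one (s := node a b) (by omega)
        obtain ⟨j, hj⟩ := cherries_one (s := node c d) (by omega)
        exact ⟨i, j, 0, CEq.congr hi hj⟩

lemma cherries_two {s : Br} (h : s.cherries = 2) : ∃ i j k, j ≤ i ∧ CEq s (two i j k) := by
  obtain ⟨i, j, k, hs⟩ := cherries_two' h
  rcases le_total j i with hij | hij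
  · exact ⟨i, j, k, hij, hs⟩
  · exact ⟨j, i, k, hij, hs.trans (two_swap _ _ _)⟩

/-! ### the easy direction -/

lemma ev_congr {A : Type*} [Bracket A A] (s : Br) : ∀ x y : ℕ → A,
    (∀ n < s.deg, x n = y n) → ev s x = ev s y := by
  induction s with
  | leaf => intro x y h; exact h 0 (by simp [deg])
  | node l r ihl ihr =>
    intro x y h
    simp only [ev]
    rw [ihl x y (fun n hn => h n (by simp only [deg]; omega)),
      ihr (fun i => x (i + l.deg)) (fun i => y (i + l.deg))
        (fun n hn => h _ (by simp only [deg]; omega))]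

def Rel (A : Type*) [LieRing A] (s t : Br) : Prop :=
  ∀ x : ℕ → A, ∃ y : ℕ → A, ev t y = ev s x ∨ ev t y = - ev s x

lemma Rel.trans {A : Type*} [LieRing A] {s t r : Br} (h1 : Rel A s t) (h2 : Rel A t r) :
    Rel A s r := by
  intro x
  obtain ⟨y, hy⟩ := h1 x
  obtain ⟨z, hz⟩ := h2 y
  refine ⟨z, ?_⟩
  rcases hy with hy | hy <;> rcases hz with hz | hz <;> rw [hz, hy] <;> simp

lemma rel_comm {A : Type*} [LieRing A] (s t : Br) : Rel A (node s t) (node t s) := by
  intro x
  refine ⟨fun n => if n < t.deg then x (n + s.deg) else x (n - t.deg), Or.inr ?_⟩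
  simp only [ev]
  rw [ev_congr t (fun n => if n < t.deg then x (n + s.deg) else x (n - t.deg))
      (fun i => x (i + s.deg)) (fun n hn => by simp [hn]),
    ev_congr s (fun i => (if i + t.deg < t.deg then x (i + t.deg + s.deg)
      else x (i + t.deg - t.deg))) x (fun n hn => by simp)]
  rw [← lie_skew]

lemma rel_congr {A : Type*} [LieRing A] {s s' t t' : Br} (h1 : Rel A s s') (h2 : Rel A t t') :
    Rel A (node s t) (node s' t') := by
  intro x
  obtain ⟨y, hy⟩ := h1 x
  obtain ⟨z, hz⟩ := h2 (fun i => x (i + s.deg))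
  refine ⟨fun n => if n < s'.deg then y n else z (n - s'.deg), ?_⟩
  simp only [ev]
  rw [ev_congr s' (fun n => if n < s'.deg then y n else z (n - s'.deg)) y
      (fun n hn => by simp [hn]),
    ev_congr t' (fun i => (if i + s'.deg < s'.deg then y (i + s'.deg)
      else z (i + s'.deg - s'.deg))) z (fun n hn => by simp)]
  rcases hy with hy | hy <;> rcases hz with hz | hz <;> rw [hz, hy] <;> simp

lemma CEq.rel {A : Type*} [LieRing A] {s t : Br} (h : CEq s t) : Rel A s t ∧ Rel A t s := by
  induction h with
  | refl s => exact ⟨fun x => ⟨x, Or.inl rfl⟩, fun x => ⟨x, Or.inl rfl⟩⟩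
  | symm _ ih => exact ⟨ih.2, ih.1⟩
  | trans _ _ ih1 ih2 => exact ⟨ih1.1.trans ih2.1, ih2.2.trans ih1.2⟩
  | comm s t => exact ⟨rel_comm s t, rel_comm t s⟩
  | congr _ _ ih1 ih2 => exact ⟨rel_congr ih1.1 ih2.1, rel_congr ih1.2 ih2.2⟩

lemma holds_of_rel {A : Type*} [LieRing A] {s t : Br} (h : Rel A s t) (ht : Holds A t) :
    Holds A s := by
  intro x
  obtain ⟨y, hy⟩ := h x
  rw [ht y] at hy
  rcases hy with hy | hy
  · exact hy.symm
  · exact neg_eq_zero.mp hy.symm

lemma CEq.holds {A : Type*} [LieRing A] {s t : Br} (h : CEq s t) : Holds A s ↔ Holds A t :=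
  ⟨holds_of_rel h.rel.2, holds_of_rel h.rel.1⟩

/-! ### the Lie algebras `K × R × R × M` -/

section alg

variable {K R M : Type u} [Field K] [CommRing R] [CommRing M] [Algebra K R] [Algebra K M]

/-- the underlying space `K × R × R × M` -/
@[ext] structure G (q : R →ₐ[K] M) (x y : R) : Type u where
  a : K
  f : R
  g : R
  h : M

variable {q : R →ₐ[K] M} {x y : R}

namespace G

instance : Zero (G q x y) := ⟨⟨0, 0, 0, 0⟩⟩
instance : Add (G q x y) := ⟨fun u v => ⟨u.a + v.a, u.f + v.f, u.g + v.g, u.h + v.h⟩⟩
instance : Neg (G q x y) := ⟨fun u => ⟨-u.a, -u.f, -u.g, -u.h⟩⟩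
instance : Sub (G q x y) := ⟨fun u v => ⟨u.a - v.a, u.f - v.f, u.g - v.g, u.h - v.h⟩⟩
instance : SMul K (G q x y) := ⟨fun c u => ⟨c * u.a, c • u.f, c • u.g, c • u.h⟩⟩
instance : Bracket (G q x y) (G q x y) := ⟨fun u v =>
  ⟨0, u.a • (x * v.f) - v.a • (x * u.f), u.a • (y * v.g) - v.a • (y * u.g),
    u.a • (q (x + y) * v.h) - v.a • (q (x + y) * u.h) + q (u.f * v.g - v.f * u.g)⟩⟩

@[simp] lemma zero_a : (0 : G q x y).a = 0 := rfl
@[simp] lemma zero_f : (0 : G q x y).f = 0 := rfl
@[simp] lemma zero_g : (0 : G q x y).g = 0 := rfl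
@[simp] lemma zero_h : (0 : G q x y).h = 0 := rfl
@[simp] lemma add_a (u v : G q x y) : (u + v).a = u.a + v.a := rfl
@[simp] lemma add_f (u v : G q x y) : (u + v).f = u.f + v.f := rfl
@[simp] lemma add_g (u v : G q x y) : (u + v).g = u.g + v.g := rfl
@[simp] lemma add_h (u v : G q x y) : (u + v).h = u.h + v.h := rfl
@[simp] lemma neg_a (u : G q x y) : (-u).a = -u.a := rfl
@[simp] lemma neg_f (u : G q x y) : (-u).f = -u.f := rfl
@[simp] lemma neg_g (u : G q x y) : (-u).g = -u.g := rfl
@[simp] lemma neg_h (u : G q x y) : (-u).h = -u.h := rfl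
@[simp] lemma sub_a (u v : G q x y) : (u - v).a = u.a - v.a := rfl
@[simp] lemma sub_f (u v : G q x y) : (u - v).f = u.f - v.f := rfl
@[simp] lemma sub_g (u v : G q x y) : (u - v).g = u.g - v.g := rfl
@[simp] lemma sub_h (u v : G q x y) : (u - v).h = u.h - v.h := rfl
@[simp] lemma smul_a (c : K) (u : G q x y) : (c • u).a = c * u.a := rfl
@[simp] lemma smul_f (c : K) (u : G q x y) : (c • u).f = c • u.f := rfl
@[simp] lemma smul_g (c : K) (u : G q x y) : (c • u).g = c • u.g := rfl
@[simp] lemma smul_h (c : K) (u : G q x y) : (c • u).h = c • u.h := rfl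
@[simp] lemma br_a (u v : G q x y) : (⁅u, v⁆ : G q x y).a = 0 := rfl
@[simp] lemma br_f (u v : G q x y) :
    (⁅u, v⁆ : G q x y).f = u.a • (x * v.f) - v.a • (x * u.f) := rfl
@[simp] lemma br_g (u v : G q x y) :
    (⁅u, v⁆ : G q x y).g = u.a • (y * v.g) - v.a • (y * u.g) := rfl
@[simp] lemma br_h (u v : G q x y) : (⁅u, v⁆ : G q x y).h =
    u.a • (q (x + y) * v.h) - v.a • (q (x + y) * u.h) + q (u.f * v.g - v.f * u.g) := rfl

instance : AddCommGroup (G q x y) where
  add_assoc u v w := by ext <;> simp [add_assoc]
  zero_add u := by ext <;> simp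
  add_zero u := by ext <;> simp
  nsmul := nsmulRec
  zsmul := zsmulRec
  sub_eq_add_neg u v := by ext <;> simp [sub_eq_add_neg]
  neg_add_cancel u := by ext <;> simp
  add_comm u v := by ext <;> simp [add_comm]

instance : Module K (G q x y) where
  one_smul u := by ext <;> simp
  mul_smul c d u := by ext <;> simp [mul_smul, mul_assoc]
  smul_zero c := by ext <;> simp
  smul_add c u v := by ext <;> simp [mul_add]
  add_smul c d u := by ext <;> simp [add_smul, add_mul]
  zero_smul u := by ext <;> simp

instance : LieRing (G q x y) where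
  add_lie u v w := by
    ext
    · simp
    · simp only [br_f, add_f, add_a, Algebra.smul_def, map_add]; ring
    · simp only [br_g, add_g, add_a, Algebra.smul_def, map_add]; ring
    · simp only [br_h, add_h, add_f, add_g, add_a, Algebra.smul_def, map_add, map_sub, map_mul]
      ring
  lie_add u v w := by
    ext
    · simp
    · simp only [br_f, add_f, add_a, Algebra.smul_def, map_add]; ring
    · simp only [br_g, add_g, add_a, Algebra.smul_def, map_add]; ring
    · simp only [br_h, add_h, add_f, add_g, add_a, Algebra.smul_def, map_add, map_sub, map_mul]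
      ring
  lie_self u := by
    ext
    · simp
    · simp
    · simp
    · simp [mul_comm]
  leibniz_lie u v w := by
    ext
    · simp
    · simp only [br_f, br_a, add_f, Algebra.smul_def, map_zero]; ring
    · simp only [br_g, br_a, add_g, Algebra.smul_def, map_zero]; ring
    · simp only [br_h, br_f, br_g, br_a, add_h, Algebra.smul_def, map_zero, map_add, map_sub,
        map_mul, AlgHom.commutes]
      ring

instance : LieAlgebra K (G q x y) where
  lie_smul c u v := by
    ext
    · simp
    · simp only [br_f, smul_f, smul_a, Algebra.smul_def, map_mul]; ring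
    · simp only [br_g, smul_g, smul_a, Algebra.smul_def, map_mul]; ring
    · simp only [br_h, smul_h, smul_f, smul_g, smul_a, Algebra.smul_def, map_add, map_sub,
        map_mul, AlgHom.commutes]
      ring

end G

namespace G

/-! #### vanishing -/

lemma ev_a (s : Br) (hs : s ≠ leaf) (z : ℕ → G q x y) : (ev s z).a = 0 := by
  cases s with
  | leaf => exact absurd rfl hs
  | node l r => rfl

lemma ev_a' (s : Br) (hs : 1 ≤ s.cherries) (z : ℕ → G q x y) : (ev s z).a = 0 := by
  apply ev_a
  rintro rfl
  simp [cherries] at hs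

lemma ev_fg (s : Br) (hs : 2 ≤ s.cherries) (z : ℕ → G q x y) :
    (ev s z).f = 0 ∧ (ev s z).g = 0 := by
  induction s generalizing z with
  | leaf => simp [cherries] at hs
  | node l r ihl ihr =>
    have hn : ¬ (l = leaf ∧ r = leaf) := by
      rintro ⟨rfl, rfl⟩
      simp [cherries] at hs
    rw [cherries_node _ _ hn] at hs
    simp only [ev, br_f, br_g]
    by_cases h1 : 1 ≤ l.cherries
    · by_cases h2 : 1 ≤ r.cherries
      · rw [ev_a' l h1, ev_a' r h2]; simp
      · obtain ⟨e1, e2⟩ := ihl (by omega) z
        rw [ev_a' l h1, e1, e2]; simp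
    · obtain ⟨e1, e2⟩ := ihr (by omega) (fun i => z (i + l.deg))
      rw [ev_a' r (by omega), e1, e2]; simp

lemma ev_zero (s : Br) (hs : 3 ≤ s.cherries) (z : ℕ → G q x y) : ev s z = 0 := by
  induction s generalizing z with
  | leaf => simp [cherries] at hs
  | node l r ihl ihr =>
    have hn : ¬ (l = leaf ∧ r = leaf) := by
      rintro ⟨rfl, rfl⟩
      simp [cherries] at hs
    rw [cherries_node _ _ hn] at hs
    simp only [ev]
    by_cases h3 : 3 ≤ l.cherries
    · rw [ihl h3]; simp
    by_cases h4 : 3 ≤ r.cherries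
    · rw [ihr h4]; simp
    have a1 : (ev l z).a = 0 := ev_a' l (by omega) z
    have a2 : (ev r (fun i => z (i + l.deg))).a = 0 := ev_a' r (by omega) _
    ext
    · rfl
    · simp [a1, a2]
    · simp [a1, a2]
    · simp only [br_h, a1, a2, zero_smul, sub_zero, zero_add, zero_h]
      by_cases h5 : 2 ≤ l.cherries
      · obtain ⟨e1, e2⟩ := ev_fg l h5 z
        rw [e1, e2]; simp
      · obtain ⟨e1, e2⟩ := ev_fg r (by omega) (fun i => z (i + l.deg))
        rw [e1, e2]; simp

lemma cat_form (m : ℕ) (z : ℕ → G q x y) :
    ∃ φ γ : R, (ev (cat m) z).f = x ^ (m + 1) * φ ∧ (ev (cat m) z).g = y ^ (m + 1) * γ := by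
  induction m with
  | zero =>
    refine ⟨(z 0).a • (z 1).f - (z 1).a • (z 0).f, (z 0).a • (z 1).g - (z 1).a • (z 0).g, ?_, ?_⟩
    · simp only [cat, hang, ev, deg, br_f, Algebra.smul_def]; ring
    · simp only [cat, hang, ev, deg, br_g, Algebra.smul_def]; ring
  | succ m ih =>
    obtain ⟨φ, γ, h1, h2⟩ := ih
    have ha : (ev (cat m) z).a = 0 := by
      apply ev_a
      cases m <;> simp [cat, hang]
    have e : ev (cat (m + 1)) z = ⁅ev (cat m) z, z (0 + (cat m).deg)⁆ := rfl
    refine ⟨-((z (0 + (cat m).deg)).a • φ), -((z (0 + (cat m).deg)).a • γ), ?_, ?_⟩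
    · rw [e, br_f, ha, h1, zero_smul, zero_sub]; simp only [Algebra.smul_def]; ring
    · rw [e, br_g, ha, h2, zero_smul, zero_sub]; simp only [Algebra.smul_def]; ring

lemma hang_h (t : Br) (ht : 2 ≤ t.cherries) (k : ℕ) (z : ℕ → G q x y) :
    ∃ c : K, (ev (hang t k) z) = ⟨0, 0, 0, c • (q (x + y) ^ k * (ev t z).h)⟩ := by
  induction k with
  | zero =>
    refine ⟨1, ?_⟩
    ext
    · exact ev_a' t (by omega) z
    · exact (ev_fg t ht z).1
    · exact (ev_fg t ht z).2
    · simp [hang]
  | succ k ih =>
    obtain ⟨c, hc⟩ := ih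
    have e : ev (hang t (k + 1)) z = ⁅ev (hang t k) z, z (0 + (hang t k).deg)⁆ := rfl
    refine ⟨-((z (0 + (hang t k).deg)).a * c), ?_⟩
    rw [e, hc]
    ext
    · rfl
    · simp
    · simp
    · simp only [br_h, zero_smul, zero_sub, Algebra.smul_def, map_neg, map_mul, zero_mul, mul_zero,
        sub_zero, map_zero, add_zero]
      ring

lemma cherries_node_cat (i j : ℕ) : 2 ≤ (node (cat i) (cat j)).cherries := by
  rw [cherries_node]
  · have h : ∀ m, 1 ≤ (cat m).cherries := by
      intro m; cases m <;> exact cherries_pos _ _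
    have := h i
    have := h j
    omega
  · rintro ⟨h, _⟩
    cases i <;> simp [cat, hang] at h

/-- The identity of a bracket structure with two cherries holds. -/
lemma holds_two (i j k : ℕ)
    (h1 : q ((x + y) ^ k * (x ^ (i + 1) * y ^ (j + 1))) = 0)
    (h2 : q ((x + y) ^ k * (x ^ (j + 1) * y ^ (i + 1))) = 0) :
    Holds (G q x y) (two i j k) := by
  intro z
  obtain ⟨c, hc⟩ := hang_h (node (cat i) (cat j)) (cherries_node_cat i j) k z
  rw [two, hc]
  obtain ⟨φ, γ, e1, e2⟩ := cat_form i z
  obtain ⟨φ', γ', e3, e4⟩ := cat_form j (fun n => z (n + (cat i).deg))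
  have a1 : (ev (cat i) z).a = 0 := ev_a _ (by cases i <;> simp [cat, hang]) _
  have a2 : (ev (cat j) (fun n => z (n + (cat i).deg))).a = 0 :=
    ev_a _ (by cases j <;> simp [cat, hang]) _
  ext
  · rfl
  · rfl
  · rfl
  · simp only [ev, br_h, a1, a2, e1, e2, e3, e4, zero_smul, sub_zero, zero_add, zero_h]
    have : q (x + y) ^ k * q (x ^ (i + 1) * φ * (y ^ (j + 1) * γ') -
        x ^ (j + 1) * φ' * (y ^ (i + 1) * γ)) =
        q ((x + y) ^ k * (x ^ (i + 1) * y ^ (j + 1))) * q (φ * γ') -
        q ((x + y) ^ k * (x ^ (j + 1) * y ^ (i + 1))) * q (φ' * γ) := by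
      simp only [map_mul, map_sub, map_pow]; ring
    rw [this, h1, h2]; simp

/-! #### non-vanishing -/

def A1 : G q x y := ⟨1, 0, 0, 0⟩
def B1 : G q x y := ⟨0, 1, 0, 0⟩
def B2 : G q x y := ⟨0, 0, 1, 0⟩

lemma cat_val1 (m : ℕ) (z : ℕ → G q x y) (h0 : z 0 = B1)
    (hz : ∀ n, 1 ≤ n → n < m + 2 → z n = A1) :
    ev (cat m) z = ⟨0, (-x) ^ (m + 1), 0, 0⟩ := by
  induction m with
  | zero =>
    have e : ev (cat 0) z = ⁅z 0, z (0 + 1)⁆ := rfl
    rw [e, h0, hz (0 + 1) (by omega) (by omega)]
    ext <;> simp [A1, B1]
  | succ m ih =>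
    have e : ev (cat (m + 1)) z = ⁅ev (cat m) z, z (0 + (cat m).deg)⁆ := rfl
    rw [e, ih (fun n h1 h2 => hz n h1 (by omega)), deg_cat, hz _ (by omega) (by omega)]
    ext
    · simp [A1]
    · simp [A1]; ring
    · simp [A1]
    · simp [A1]

lemma cat_val2 (m : ℕ) (z : ℕ → G q x y) (h0 : z 0 = B2)
    (hz : ∀ n, 1 ≤ n → n < m + 2 → z n = A1) :
    ev (cat m) z = ⟨0, 0, (-y) ^ (m + 1), 0⟩ := by
  induction m with
  | zero =>
    have e : ev (cat 0) z = ⁅z 0, z (0 + 1)⁆ := rfl
    rw [e, h0, hz (0 + 1) (by omega) (by omega)]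
    ext <;> simp [A1, B2]
  | succ m ih =>
    have e : ev (cat (m + 1)) z = ⁅ev (cat m) z, z (0 + (cat m).deg)⁆ := rfl
    rw [e, ih (fun n h1 h2 => hz n h1 (by omega)), deg_cat, hz _ (by omega) (by omega)]
    ext
    · simp [A1]
    · simp [A1]
    · simp [A1]; ring
    · simp [A1]

/-- The substitution. -/
def sub (i : ℕ) : ℕ → G q x y := fun n => if n = 0 then B1 else if n = i + 2 then B2 else A1

lemma two_val (i j k : ℕ) : ev (two i j k) (sub i : ℕ → G q x y) =
    ⟨0, 0, 0, (-q (x + y)) ^ k * q ((-x) ^ (i + 1) * (-y) ^ (j + 1))⟩ := by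
  induction k with
  | zero =>
    have e : ev (two i j 0) (sub i : ℕ → G q x y) =
      ⁅ev (cat i) (sub i), ev (cat j) (fun n => sub i (n + (cat i).deg))⁆ := rfl
    rw [e, cat_val1 i _ (by simp [sub]) (fun n h1 h2 => by
        simp only [sub]; rw [if_neg (by omega), if_neg (by omega)]),
      cat_val2 j _ (by simp [sub, deg_cat]) (fun n h1 h2 => by
        simp only [sub, deg_cat]; rw [if_neg (by omega), if_neg (by omega)])]
    ext <;> simp
  | succ k ih =>
    have e : ev (two i j (k + 1)) (sub i : ℕ → G q x y) =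
      ⁅ev (two i j k) (sub i), sub i (0 + (two i j k).deg)⁆ := rfl
    rw [e, ih]
    have : (sub i (0 + (two i j k).deg) : G q x y) = A1 := by
      simp only [sub, deg_two]; rw [if_neg (by omega), if_neg (by omega)]
    rw [this]
    ext
    · simp [A1]
    · simp [A1]
    · simp [A1]
    · simp only [br_h, A1, zero_smul, zero_sub, one_smul, mul_zero, sub_zero, zero_mul, map_zero,
        add_zero]
      ring

end G

end alg

/-! ### the theorem -/

open Polynomial

section final

variable (K : Type u) [Field K]

/-- truncation -/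
noncomputable abbrev qm (m : ℕ) : K[X] →ₐ[K] (K[X] ⧸ Ideal.span {(X : K[X]) ^ m}) :=
  Ideal.Quotient.mkₐ K _

lemma qm_eq_zero (m : ℕ) (p : K[X]) : qm K m p = 0 ↔ X ^ m ∣ p := by
  rw [Ideal.Quotient.mkₐ_eq_mk, Ideal.Quotient.eq_zero_iff_mem, Ideal.mem_span_singleton]

/-- from the identities of `two i j k` to those of `two i' j' k'`, exponent of `y` -/
lemma step_j (i j k i' j' k' : ℕ) (hij : j ≤ i)
    (h : ∀ (A : Type u) [LieRing A] [LieAlgebra K A], Holds A (two i j k) →
      Holds A (two i' j' k')) : j ≤ j' := by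
  by_contra hlt
  push Not at hlt
  have h1 : Holds (G (qm K (j + 1)) (1 : K[X]) X) (two i j k) := by
    apply G.holds_two
    · rw [qm_eq_zero]
      exact Dvd.dvd.mul_left (Dvd.dvd.mul_left (pow_dvd_pow _ (by omega)) _) _
    · rw [qm_eq_zero]
      exact Dvd.dvd.mul_left (Dvd.dvd.mul_left (pow_dvd_pow _ (by omega)) _) _
  have h2 := h _ h1 (G.sub i')
  rw [G.two_val] at h2
  have h3 := congrArg G.h h2
  simp only [G.zero_h] at h3
  rw [← map_neg, ← map_pow, ← map_mul, qm_eq_zero, X_pow_dvd_iff] at h3
  have h4 := h3 (j' + 1) (by omega)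
  have e : (-(1 + X : K[X])) ^ k' * ((-1) ^ (i' + 1) * (-X) ^ (j' + 1)) =
      ((-(1 + X : K[X])) ^ k' * ((-1) ^ (i' + 1) * (-1) ^ (j' + 1))) * X ^ (j' + 1) := by
    rw [neg_pow (X : K[X]) (j' + 1)]; ring
  rw [e] at h4
  have h5 := coeff_mul_X_pow ((-(1 + X : K[X])) ^ k' * ((-1) ^ (i' + 1) * (-1) ^ (j' + 1)))
    (j' + 1) 0
  rw [zero_add, h4, coeff_zero_eq_eval_zero] at h5
  simp at h5

lemma step_k (i j k i' j' k' : ℕ)
    (h : ∀ (A : Type u) [LieRing A] [LieAlgebra K A], Holds A (two i j k) →
      Holds A (two i' j' k')) : k ≤ k' := by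
  by_contra hlt
  push Not at hlt
  have h1 : Holds (G (qm K k) (1 : K[X]) (X - 1)) (two i j k) := by
    apply G.holds_two
    · rw [qm_eq_zero]
      exact Dvd.dvd.mul_right (by simp) _
    · rw [qm_eq_zero]
      exact Dvd.dvd.mul_right (by simp) _
  have h2 := h _ h1 (G.sub i')
  rw [G.two_val] at h2
  have h3 := congrArg G.h h2
  simp only [G.zero_h] at h3
  rw [← map_neg, ← map_pow, ← map_mul, qm_eq_zero, X_pow_dvd_iff] at h3
  have h4 := h3 k' hlt
  have e : (-(1 + (X - 1) : K[X])) ^ k' * ((-1) ^ (i' + 1) * (-(X - 1)) ^ (j' + 1)) =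
      ((-1) ^ k' * ((-1) ^ (i' + 1) * (-(X - 1)) ^ (j' + 1))) * X ^ k' := by
    rw [add_sub_cancel, neg_pow (X : K[X]) k']; ring
  rw [e] at h4
  have h5 := coeff_mul_X_pow ((-1 : K[X]) ^ k' * ((-1) ^ (i' + 1) * (-(X - 1)) ^ (j' + 1)))
    k' 0
  rw [zero_add, h4, coeff_zero_eq_eval_zero] at h5
  simp at h5

/-- no identity of a structure with at least three cherries implies one with two cherries -/
lemma three_two (s : Br) (hs : 3 ≤ s.cherries) (i j k : ℕ) :
    ¬ ∀ (A : Type u) [LieRing A] [LieAlgebra K A], Holds A s → Holds A (two i j k) := by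
  intro h
  have h2 := h (G (AlgHom.id K K[X]) (1 : K[X]) X) (fun z => G.ev_zero s hs z) (G.sub i)
  rw [G.two_val] at h2
  have h3 := congrArg G.h h2
  simp only [G.zero_h, AlgHom.coe_id, id_eq] at h3
  have hX : (X : K[X]) ≠ 0 := X_ne_zero
  have h1X : (1 + X : K[X]) ≠ 0 := by
    intro h0
    have := congrArg (fun p => coeff p 1) h0
    simp [coeff_one] at this
  have h4 : (-(1 + X : K[X])) ^ k * ((-1) ^ (i + 1) * (-X) ^ (j + 1)) ≠ 0 :=
    mul_ne_zero (pow_ne_zero _ (neg_ne_zero.mpr h1X))
      (mul_ne_zero (pow_ne_zero _ (neg_ne_zero.mpr one_ne_zero))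
        (pow_ne_zero _ (neg_ne_zero.mpr hX)))
  exact h4 h3

/-- no identity of a structure with at least two cherries implies one with one cherry -/
lemma two_one (s : Br) (hs : 2 ≤ s.cherries) (m : ℕ) :
    ¬ ∀ (A : Type u) [LieRing A] [LieAlgebra K A], Holds A s → Holds A (cat m) := by
  intro h
  have hsub : Subsingleton (K[X] ⧸ (⊤ : Ideal K[X])) := Ideal.Quotient.subsingleton_iff.mpr rfl
  have h2 := h (G (Ideal.Quotient.mkₐ K (⊤ : Ideal K[X])) (1 : K[X]) 1) (fun z => G.ext
      (G.ev_a' s (by omega) z) (G.ev_fg s hs z).1 (G.ev_fg s hs z).2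
      (Subsingleton.elim _ _)) (G.sub m)
  rw [G.cat_val1 m _ (by simp [G.sub]) (fun n h1 h2 => by
        simp only [G.sub]; rw [if_neg (by omega), if_neg (by omega)])] at h2
  have h3 := congrArg G.f h2
  simp at h3

end final

/-- **Theorem.** Let `K` be any field, let `σ` and `τ` be bracket structures of the same degree and
let `σ` have at most two cherries (`τ` is arbitrary).  Then the identities `w_σ = 0` and `w_τ = 0`
hold in exactly the same Lie algebras over `K` if and only if `σ` and `τ` coincide in the free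
commutative groupoid on one letter. -/
theorem result (K : Type u) [Field K] (s t : Br) (hd : s.deg = t.deg) (hc : s.cherries ≤ 2) :
    EquivId K s t ↔ CEq s t := by
  constructor
  · intro h
    have hcases : s.cherries = 0 ∨ s.cherries = 1 ∨ s.cherries = 2 := by omega
    rcases hcases with h0 | h1 | h2
    · -- degree one
      have hs := cherries_zero h0
      subst hs
      cases t with
      | leaf => exact CEq.refl _
      | node l r =>
        have := deg_pos l
        have := deg_pos r
        simp only [deg] at hd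
        omega
    · obtain ⟨m, hm⟩ := cherries_one h1
      rcases Nat.lt_or_ge t.cherries 2 with ht | ht
      · have ht' : t.cherries = 0 ∨ t.cherries = 1 := by omega
        rcases ht' with ht0 | ht1
        · have := cherries_zero ht0
          subst this
          have := hm.deg_eq
          rw [deg_cat] at this
          simp only [deg] at hd
          omega
        · obtain ⟨m', hm'⟩ := cherries_one ht1
          have e1 := hm.deg_eq
          have e2 := hm'.deg_eq
          rw [deg_cat] at e1 e2
          have : m = m' := by omega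
          subst this
          exact hm.trans hm'.symm
      · exact (two_one K t ht m (fun A _ _ hA => hm.holds.1 ((h A).2 hA))).elim
    · obtain ⟨i, j, k, hij, hs⟩ := cherries_two h2
      rcases Nat.lt_or_ge t.cherries 3 with ht | ht
      · have ht' : t.cherries = 0 ∨ t.cherries = 1 ∨ t.cherries = 2 := by omega
        rcases ht' with ht0 | ht1 | ht2
        · have := cherries_zero ht0
          subst this
          have := hs.deg_eq
          rw [deg_two] at this
          simp only [deg] at hd
          omega
        · obtain ⟨m', hm'⟩ := cherries_one ht1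
          exact (two_one K s (by omega) m' (fun A _ _ hA => hm'.holds.1 ((h A).1 hA))).elim
        · obtain ⟨i', j', k', hij', hs'⟩ := cherries_two ht2
          have f1 : ∀ (A : Type u) [LieRing A] [LieAlgebra K A], Holds A (two i j k) →
              Holds A (two i' j' k') := fun A _ _ hA => hs'.holds.1 ((h A).1 (hs.holds.2 hA))
          have f2 : ∀ (A : Type u) [LieRing A] [LieAlgebra K A], Holds A (two i' j' k') →
              Holds A (two i j k) := fun A _ _ hA => hs.holds.1 ((h A).2 (hs'.holds.2 hA))
          have g1 := step_j K i j k i' j' k' hij f1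
          have g2 := step_j K i' j' k' i j k hij' f2
          have g3 := step_k K i j k i' j' k' f1
          have g4 := step_k K i' j' k' i j k f2
          have e1 := hs.deg_eq
          have e2 := hs'.deg_eq
          rw [deg_two] at e1 e2
          have ej : j = j' := by omega
          have ek : k = k' := by omega
          have ei : i = i' := by omega
          subst ej ek ei
          exact hs.trans hs'.symm
      · exact (three_two K t ht i j k (fun A _ _ hA => hs.holds.1 ((h A).2 hA))).elim
  · intro h A _ _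
    exact h.holds

end Pool.Agent.Results.MP_5ecbac_al.TwoCherries
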